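import Pool.Agent.Lib_helper89.CE.K11
import Pool.Agent.Lib_helper65.TVC.Final

/-!
# Cubic exponents (MP_85e36e_co): the theorem
-/

set_option autoImplicit false

namespace Pool.Agent.CE

open Pool.Agent.TV

theorem final (n : ℕ) (hn : 0 < n) (hn2 : Even n) (d : ℕ) (hd : Nat.Coprime d (2 ^ n - 1))
    (a b c : ℕ) (hw : d ≡ 2 ^ a + 2 ^ b + 2 ^ c [MOD 2 ^ n - 1] ∨
      d * (2 ^ a + 2 ^ b + 2 ^ c) ≡ 1 [MOD 2 ^ n - 1])
    (h3 : Set.ncard {v : ℤ | ∃ c : GaloisField 2 n, c ≠ 0 ∧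
        v = ∑ᶠ x ∈ {x : GaloisField 2 n | x ≠ 0},
          (-1 : ℤ) ^ (Algebra.trace (ZMod 2) (GaloisField 2 n) (c * x - x ^ d)).val} = 3) :
    ∃ e i : ℕ,
        (d ≡ 2 ^ i * e [MOD 2 ^ n - 1] ∨ d * e ≡ 2 ^ i [MOD 2 ^ n - 1]) ∧
        ((∃ k : ℕ, 0 < k ∧ Odd (n / Nat.gcd k n) ∧ e = 2 ^ k + 1) ∨
         (∃ k : ℕ, 0 < k ∧ Odd (n / Nat.gcd k n) ∧ e = 2 ^ (2 * k) - 2 ^ k + 1) ∨
         (n % 4 = 2 ∧ e = 2 ^ (n / 2) + 2 ^ ((n + 2) / 4) + 1) ∨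
         (n % 4 = 2 ∧ e = 2 ^ ((n + 2) / 2) + 3)) := by
  rw [Nat.even_iff] at hn2
  have hd0 : 0 < d := by
    rcases Nat.eq_zero_or_pos d with rfl | h
    · exfalso
      rw [Nat.coprime_zero_left] at hd
      have h2 : 2 ^ 2 ≤ 2 ^ n := Nat.pow_le_pow_right (by norm_num) (by omega)
      omega
    · exact h
  letI : Fintype (GaloisField 2 n) := Fintype.ofFinite _
  obtain ⟨hF, hW⟩ := bridge n hn d hd0 h3
  have hV := V_of_three (GaloisField 2 n) n hn hF d hd hW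
  have hCon : Con n d := by
    rcases hw with hw | hw
    · exact classify hn hn2 hd hw hV
    · refine Con.inv hn hw (classify (a := a) (b := b) (c := c) hn hn2 ?_ rfl (V_inv n d _ hV hw))
      have h1 : Nat.gcd (d * (2 ^ a + 2 ^ b + 2 ^ c)) (2 ^ n - 1) = 1 := by
        rw [hw.gcd_eq]
        exact Nat.gcd_one_left _
      exact Nat.Coprime.coprime_mul_left h1
  rcases hCon with ⟨i, hi⟩ | h
  · exact absurd hW (not_three_of_pow2 _ n hn hF d i hi hd0)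
  · exact h

end Pool.Agent.CE
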