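import Pool.Agent.Lib_helper65.TVC.EQV

/-!
# Cubic exponents (MP_85e36e_co): the kill criterion

`V n d` fails as soon as there is a set `J` of positions modulo `n` and a set `C` of carries such
that the addition of the three shifts of `J` has the carries `C` and `n + 2 |C| ≤ 4 |J|`.
-/

set_option autoImplicit false

namespace Pool.Agent.CE

open Pool.Agent.TV

/-- The indicator. -/
def ind (P : Prop) [Decidable P] : ℕ := if P then 1 else 0

theorem ind_cases (P : Prop) [Decidable P] : (P ∧ ind P = 1) ∨ (¬ P ∧ ind P = 0) := by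
  unfold ind
  by_cases h : P
  · exact Or.inl ⟨h, if_pos h⟩
  · exact Or.inr ⟨h, if_neg h⟩

theorem bw_sum_pow (S : Finset ℕ) : bw (∑ x ∈ S, 2 ^ x) = S.card := by
  induction S using Finset.induction_on_max with
  | empty => simp [bw_zero]
  | insert a s hs ih =>
    have ha : a ∉ s := fun h => lt_irrefl _ (hs a h)
    rw [Finset.sum_insert ha, Finset.card_insert_of_notMem ha, ← ih, add_comm]
    have h1 : ∑ x ∈ s, 2 ^ x < 2 ^ a := by
      have h2 : ∑ x ∈ s, 2 ^ x ≤ ∑ x ∈ Finset.range a, 2 ^ x :=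
        Finset.sum_le_sum_of_subset fun x hx => Finset.mem_range.mpr (hs x hx)
      have h3 : ∑ x ∈ Finset.range a, 2 ^ x = 2 ^ a - 1 := Nat.geomSum_eq (le_refl 2) a |>.trans
        (by simp)
      have h4 : 0 < 2 ^ a := by positivity
      omega
    have h5 := bw_low_high a (∑ x ∈ s, 2 ^ x) 1 h1
    rw [mul_one] at h5
    rw [h5]
    have h6 : bw 1 = 1 := by
      have := bw_two_mul_add 0 1 (by norm_num)
      simpa [bw_zero] using this
    omega

section

variable {n : ℕ} {X : Type*}

/-- The image of `S` in the natural numbers. -/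
theorem bw_pos (hn : 0 < n) (pos : X → ZMod n) (hpos : Function.Bijective pos) (S : Finset X) :
    bw (∑ x ∈ S, 2 ^ (pos x).val) = S.card := by
  have : NeZero n := ⟨hn.ne'⟩
  have hinj : Set.InjOn (fun x => (pos x).val) (S : Set X) := by
    intro x _ y _ h
    exact hpos.1 (ZMod.val_injective n h)
  rw [← Finset.sum_image (f := fun k => 2 ^ k) hinj, bw_sum_pow, Finset.card_image_of_injOn hinj]

end

/-- The powers of two modulo `2 ^ n - 1`. -/
noncomputable def pw (n : ℕ) (x : ZMod n) : ZMod (2 ^ n - 1) := 2 ^ x.val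

theorem two_pow_n (n : ℕ) : (2 : ZMod (2 ^ n - 1)) ^ n = 1 := by
  have h : ((2 ^ n - 1 : ℕ) : ZMod (2 ^ n - 1)) = 0 := ZMod.natCast_self _
  rw [Nat.cast_sub Nat.one_le_two_pow] at h
  push_cast at h
  exact sub_eq_zero.mp h

theorem two_pow_mod (n k : ℕ) : (2 : ZMod (2 ^ n - 1)) ^ (k % n) = 2 ^ k := by
  conv_rhs => rw [← Nat.mod_add_div k n, pow_add, pow_mul, two_pow_n, one_pow, mul_one]

theorem pw_add (n : ℕ) (hn : 0 < n) (x y : ZMod n) : pw n (x + y) = pw n x * pw n y := by
  have : NeZero n := ⟨hn.ne'⟩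
  unfold pw
  rw [ZMod.val_add, two_pow_mod, pow_add]

theorem pw_cast (n : ℕ) (k : ℕ) : pw n (k : ZMod n) = 2 ^ k := by
  unfold pw
  rw [ZMod.val_natCast, two_pow_mod]

theorem pw_sum (n : ℕ) (hn : 0 < n) {X : Type*} [Fintype X] (pos : X → ZMod n)
    (hpos : Function.Bijective pos) : ∑ x, pw n (pos x) = 0 := by
  have : NeZero n := ⟨hn.ne'⟩
  rw [hpos.sum_comp (fun y => pw n y)]
  unfold pw
  have h1 : ∑ x : ZMod n, (2 : ZMod (2 ^ n - 1)) ^ x.val =
      ∑ k ∈ Finset.range n, (2 : ZMod (2 ^ n - 1)) ^ k := by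
    rw [Finset.sum_range]
    obtain ⟨m, rfl⟩ : ∃ m, n = m + 1 := ⟨n - 1, by omega⟩
    rfl
  have h2 : ((∑ k ∈ Finset.range n, 2 ^ k : ℕ) : ZMod (2 ^ n - 1)) = 0 := by
    rw [show ∑ k ∈ Finset.range n, 2 ^ k = 2 ^ n - 1 from
      (Nat.geomSum_eq (le_refl 2) n).trans (by simp)]
    exact ZMod.natCast_self _
  rw [h1, ← h2]
  push_cast
  rfl

/-- **The kill criterion.** -/
theorem kill {n : ℕ} (hn : 0 < n) {X : Type*} [Fintype X] [DecidableEq X] (pos : X → ZMod n)
    (hpos : Function.Bijective pos) (J C : X → Prop) [DecidablePred J] [DecidablePred C]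
    (fa fb fv : X → X) (a b : ℕ) (ha : ∀ x, pos (fa x) + a = pos x)
    (hb : ∀ x, pos (fb x) + b = pos x) (hv : ∀ x, pos (fv x) + 1 = pos x)
    (h : ∀ x, ind (J x) + ind (J (fa x)) + ind (J (fb x)) + ind (C (fv x)) = 2 * ind (C x) ∨
      ind (J x) + ind (J (fa x)) + ind (J (fb x)) + ind (C (fv x)) = 2 * ind (C x) + 1)
    (hcount : n + 2 * (Finset.univ.filter C).card ≤ 4 * (Finset.univ.filter J).card)
    {d i : ℕ} (hd : d ≡ 2 ^ i * (1 + 2 ^ a + 2 ^ b) [MOD 2 ^ n - 1]) : ¬ V n d := by
  intro hV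
  have : NeZero n := ⟨hn.ne'⟩
  -- the maps are bijective
  have bij : ∀ (f : X → X) (c : ZMod n), (∀ x, pos (f x) + c = pos x) →
      Function.Bijective f := by
    intro f c hf
    have hinj : Function.Injective f := by
      intro x y hxy
      apply hpos.1
      rw [← hf x, ← hf y, hxy]
    exact ⟨hinj, Finite.surjective_of_injective hinj⟩
  have ba := bij fa a ha
  have bb := bij fb b hb
  have bv := bij fv 1 hv
  classical
  set t : X → ℕ := fun x => ind (J x) + ind (J (fa x)) + ind (J (fb x)) + ind (C (fv x)) with ht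
  set S : Finset X := Finset.univ.filter fun x => t x = 2 * ind (C x) + 1 with hS
  have hSt : ∀ x, t x = 2 * ind (C x) + ind (x ∈ S) := by
    intro x
    rcases ind_cases (x ∈ S) with ⟨h1, h2⟩ | ⟨h1, h2⟩
    · rw [h2]
      exact (Finset.mem_filter.mp h1).2
    · rw [h2, add_zero]
      rcases h x with h3 | h3
      · exact h3
      · exact absurd (Finset.mem_filter.mpr ⟨Finset.mem_univ x, h3⟩) h1
  -- sums of indicators
  have sind : ∀ (P : X → Prop) [DecidablePred P], ∑ x, ind (P x) =
      (Finset.univ.filter P).card := by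
    intro P _
    rw [Finset.card_filter]
    rfl
  have hcard : 3 * (Finset.univ.filter J).card = (Finset.univ.filter C).card + S.card := by
    have h1 : ∑ x, t x = ∑ x, (2 * ind (C x) + ind (x ∈ S)) :=
      Finset.sum_congr rfl fun x _ => hSt x
    rw [ht] at h1
    simp only [Finset.sum_add_distrib] at h1
    rw [← Finset.mul_sum, sind C, sind (fun x => x ∈ S)] at h1
    rw [ba.sum_comp (fun y => ind (J y)), bb.sum_comp (fun y => ind (J y)),
      bv.sum_comp (fun y => ind (C y)), sind J, sind C] at h1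
    have h2 : (Finset.univ.filter fun x => x ∈ S) = S := by
      ext x
      simp
    rw [h2] at h1
    omega
  -- the two numbers
  set j : ℕ := ∑ x ∈ Finset.univ.filter J, 2 ^ (pos x).val with hj
  have bwj : bw j = (Finset.univ.filter J).card := bw_pos hn pos hpos _
  set pos' : X → ZMod n := fun x => pos x + i with hpos'
  have bpos' : Function.Bijective pos' := by
    refine ⟨fun x y hxy => hpos.1 (add_right_cancel hxy), fun y => ?_⟩
    obtain ⟨x, hx⟩ := hpos.2 (y - i)
    exact ⟨x, by rw [hpos']; dsimp only; rw [hx, sub_add_cancel]⟩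
  set z : ℕ := ∑ x ∈ Sᶜ, 2 ^ (pos' x).val with hz
  have bwz : bw z = Fintype.card X - S.card := by
    rw [hz, bw_pos hn pos' bpos', Finset.card_compl]
  have cardX : Fintype.card X = n := by
    rw [Fintype.card_of_bijective hpos, ZMod.card]
  have hSle : S.card ≤ n := by
    rw [← cardX]
    exact Finset.card_le_univ S
  -- sums modulo `2 ^ n - 1`
  have e1 : ∀ (P : X → Prop) [DecidablePred P] (f : X → X) (c : ℕ),
      (∀ x, pos (f x) + c = pos x) → Function.Bijective f →
      ∑ x, ((ind (P (f x)) : ℕ) : ZMod (2 ^ n - 1)) * pw n (pos x) =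
        2 ^ c * ∑ x, ((ind (P x) : ℕ) : ZMod (2 ^ n - 1)) * pw n (pos x) := by
    intro P _ f c hf hbf
    rw [← hbf.sum_comp (fun y => ((ind (P y) : ℕ) : ZMod (2 ^ n - 1)) * pw n (pos y)),
      Finset.mul_sum]
    refine Finset.sum_congr rfl fun x _ => ?_
    rw [← hf x, pw_add n hn, pw_cast]
    ring
  have e2 : ∀ (P : X → Prop) [DecidablePred P],
      ∑ x, ((ind (P x) : ℕ) : ZMod (2 ^ n - 1)) * pw n (pos x) =
        ∑ x ∈ Finset.univ.filter P, pw n (pos x) := by
    intro P _
    rw [Finset.sum_filter]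
    refine Finset.sum_congr rfl fun x _ => ?_
    unfold ind
    split_ifs
    · rw [Nat.cast_one, one_mul]
    · rw [Nat.cast_zero, zero_mul]
  have e3 : (1 + 2 ^ a + 2 ^ b) * ∑ x ∈ Finset.univ.filter J, pw n (pos x) =
      ∑ x ∈ S, pw n (pos x) := by
    have h1 : ∑ x, ((t x : ℕ) : ZMod (2 ^ n - 1)) * pw n (pos x) =
        ∑ x, ((2 * ind (C x) + ind (x ∈ S) : ℕ) : ZMod (2 ^ n - 1)) * pw n (pos x) :=
      Finset.sum_congr rfl fun x _ => by rw [hSt x]
    rw [ht] at h1
    simp only [Nat.cast_add, add_mul, Finset.sum_add_distrib] at h1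
    rw [e1 J fa a ha ba, e1 J fb b hb bb, e1 C fv 1 (by
      intro x
      rw [Nat.cast_one]
      exact hv x) bv, e2 J, e2 C, e2 (fun x => x ∈ S)] at h1
    have h2 : (Finset.univ.filter fun x => x ∈ S) = S := by
      ext x
      simp
    have h3 : ∑ x, ((2 * ind (C x) : ℕ) : ZMod (2 ^ n - 1)) * pw n (pos x) =
        2 * ∑ x ∈ Finset.univ.filter C, pw n (pos x) := by
      rw [← e2 C, Finset.mul_sum]
      refine Finset.sum_congr rfl fun x _ => ?_
      push_cast
      ring
    rw [h2, h3] at h1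
    linear_combination h1
  have hdvd : 2 ^ n - 1 ∣ z + d * j := by
    rw [← ZMod.natCast_eq_zero_iff]
    have h1 : (d : ZMod (2 ^ n - 1)) = 2 ^ i * (1 + 2 ^ a + 2 ^ b) := by
      have := (ZMod.natCast_eq_natCast_iff _ _ _).mpr hd
      push_cast at this
      exact this
    have h2 : (j : ZMod (2 ^ n - 1)) = ∑ x ∈ Finset.univ.filter J, pw n (pos x) := by
      rw [hj]
      push_cast
      rfl
    have h3 : (z : ZMod (2 ^ n - 1)) = 2 ^ i * ∑ x ∈ Sᶜ, pw n (pos x) := by
      rw [hz]
      push_cast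
      rw [Finset.mul_sum]
      refine Finset.sum_congr rfl fun x _ => ?_
      have : pw n (pos' x) = pw n (pos x) * 2 ^ i := by
        rw [hpos']
        dsimp only
        rw [pw_add n hn, pw_cast]
      rw [mul_comm, ← this]
      rfl
    have h4 : ∑ x ∈ S, pw n (pos x) + ∑ x ∈ Sᶜ, pw n (pos x) = 0 := by
      rw [Finset.sum_add_sum_compl]
      exact pw_sum n hn pos hpos
    push_cast
    rw [h1, h2, h3, mul_assoc, e3, ← mul_add, add_comm, h4, mul_zero]
  -- `j` is not zero
  have hJ0 : 0 < (Finset.univ.filter J).card := by omega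
  have hJn : (Finset.univ.filter J).card < n := by
    by_contra hc
    have hall : ∀ x, J x := by
      intro x
      have h1 : Finset.univ.filter J = Finset.univ := by
        apply Finset.eq_univ_of_card
        have := Finset.card_le_univ (Finset.univ.filter J)
        omega
      have h2 : x ∈ Finset.univ.filter J := by
        rw [h1]
        exact Finset.mem_univ x
      exact (Finset.mem_filter.mp h2).2
    obtain ⟨x, _⟩ := Finset.card_pos.mp hJ0
    have h1 : ∀ x, C x := by
      intro x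
      by_contra hx
      have h2 := h x
      unfold ind at h2
      rw [if_pos (hall x), if_pos (hall (fa x)), if_neg hx] at h2
      omega
    have h2 := h x
    unfold ind at h2
    rw [if_pos (hall x), if_pos (hall (fa x)), if_pos (hall (fb x)), if_pos (h1 x),
      if_pos (h1 (fv x))] at h2
    omega
  have hjne : ¬ (2 ^ n - 1 ∣ j) := by
    intro hdj
    have hjpos : 0 < j := by
      rcases Nat.eq_zero_or_pos j with h0 | h0
      · rw [h0, bw_zero] at bwj
        omega
      · exact h0
    have hjle : j ≤ 2 ^ n - 1 := by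
      have h1 : j ≤ ∑ x, 2 ^ (pos x).val :=
        Finset.sum_le_sum_of_subset (Finset.filter_subset _ _)
      have h2 : ∑ x, 2 ^ (pos x).val = ∑ k ∈ Finset.range n, 2 ^ k := by
        rw [hpos.sum_comp (fun y : ZMod n => 2 ^ y.val), Finset.sum_range]
        obtain ⟨m, rfl⟩ : ∃ m, n = m + 1 := ⟨n - 1, by omega⟩
        rfl
      have h3 : ∑ k ∈ Finset.range n, 2 ^ k = 2 ^ n - 1 :=
        (Nat.geomSum_eq (le_refl 2) n).trans (by simp)
      omega
    have hjeq : j = 2 ^ n - 1 := le_antisymm hjle (Nat.le_of_dvd hjpos hdj)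
    have h1 := bw_compl n 0 (by positivity)
    rw [bw_zero, Nat.sub_zero, zero_add, ← hjeq, bwj] at h1
    omega
  have hfin := hV j z hjne hdvd
  rw [bwj, bwz, cardX] at hfin
  omega

end Pool.Agent.CE
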