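import Pool.Agent.Lib_helper89.CE.K0

/-!
# Cubic exponents (MP_85e36e_co): the kill criterion in scaled coordinates

Positions `r + g u p` modulo `n = g m`, with `r < g` and `p` modulo `m`.
-/

set_option autoImplicit false

namespace Pool.Agent.CE

open Pool.Agent.TV

/-- Subtraction modulo `m` on the numbers below `m`. -/
def sb (m p a : ℕ) : ℕ := if a ≤ p then p - a else p + m - a

theorem val_sub_sb {m : ℕ} (hm : 0 < m) (p : ZMod m) (a : ℕ) (ha : a < m) :
    (p - (a : ZMod m)).val = sb m p.val a := by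
  have : NeZero m := ⟨hm.ne'⟩
  have hp := ZMod.val_lt p
  have h1 : ((sb m p.val a : ℕ) : ZMod m) = p - a := by
    unfold sb
    split_ifs with h
    · rw [Nat.cast_sub h, ZMod.natCast_zmod_val]
    · rw [Nat.cast_sub (by omega), Nat.cast_add, ZMod.natCast_zmod_val, ZMod.natCast_self,
        add_zero]
  rw [← h1, ZMod.val_natCast, Nat.mod_eq_of_lt]
  unfold sb
  split_ifs <;> omega

/-- The number of elements below `m`. -/
def cnt (m : ℕ) (P : ℕ → Prop) [DecidablePred P] : ℕ := ((Finset.range m).filter P).card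

theorem card_zmod {m : ℕ} [NeZero m] (P : ℕ → Prop) [DecidablePred P] :
    (Finset.univ.filter fun p : ZMod m => P p.val).card = cnt m P := by
  obtain ⟨k, rfl⟩ : ∃ k, m = k + 1 := ⟨m - 1, by have := NeZero.pos m; omega⟩
  unfold cnt
  rw [Finset.card_filter, Finset.card_filter, Finset.sum_range]
  rfl

theorem card_grid {g m : ℕ} [NeZero m] (P : ℕ → ℕ → Prop)
    [∀ r, DecidablePred (P r)] :
    (Finset.univ.filter fun x : Fin g × ZMod m => P x.1.val x.2.val).card =
      ∑ r ∈ Finset.range g, cnt m (P r) := by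
  rw [Finset.card_filter, Fintype.sum_prod_type, Finset.sum_range]
  refine Finset.sum_congr rfl fun r _ => ?_
  rw [← card_zmod (P r.val), Finset.card_filter]

/-- **The kill criterion on the grid.** -/
theorem killG {g m u v a b : ℕ} (hg : 0 < g) (hm : 0 < m) (huv : u * v ≡ 1 [MOD m])
    (ha : a < m) (hb : b < m) (hv : v < m) (J C : ℕ → ℕ → Prop) [∀ r, DecidablePred (J r)]
    [∀ r, DecidablePred (C r)]
    (h : ∀ r < g, ∀ p < m, ind (J r p) + ind (J r (sb m p a)) + ind (J r (sb m p b)) +
        (if r = 0 then ind (C (g - 1) (sb m p v)) else ind (C (r - 1) p)) = 2 * ind (C r p) ∨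
      ind (J r p) + ind (J r (sb m p a)) + ind (J r (sb m p b)) +
        (if r = 0 then ind (C (g - 1) (sb m p v)) else ind (C (r - 1) p)) =
          2 * ind (C r p) + 1)
    (hcount : g * m + 2 * ∑ r ∈ Finset.range g, cnt m (C r) ≤
      4 * ∑ r ∈ Finset.range g, cnt m (J r))
    {d i : ℕ} (hd : d ≡ 2 ^ i * (1 + 2 ^ (g * u * a) + 2 ^ (g * u * b)) [MOD 2 ^ (g * m) - 1]) :
    ¬ V (g * m) d := by
  have : NeZero m := ⟨hm.ne'⟩
  have hn : 0 < g * m := Nat.mul_pos hg hm
  have : NeZero (g * m) := ⟨hn.ne'⟩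
  set pos : Fin g × ZMod m → ZMod (g * m) := fun x =>
    ((x.1.val + g * u * x.2.val : ℕ) : ZMod (g * m)) with hpos
  have huvc : Nat.Coprime u m := by
    have h1 : Nat.Coprime (u * v) m := by
      rw [Nat.Coprime, huv.gcd_eq]
      exact Nat.gcd_one_left m
    exact Nat.Coprime.coprime_mul_right h1
  have hinj : Function.Injective pos := by
    rintro ⟨r, p⟩ ⟨r', p'⟩ hx
    have h1 := (ZMod.natCast_eq_natCast_iff _ _ _).mp hx
    have h2 : r.val = r'.val := by
      have h3 : r.val + g * u * p.val ≡ r'.val + g * u * p'.val [MOD g] :=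
        h1.of_mul_right m
      have h4 : ∀ s q : ℕ, s + g * u * q ≡ s [MOD g] := by
        intro s q
        unfold Nat.ModEq
        rw [mul_assoc, Nat.add_mul_mod_self_left]
      have h5 : r.val ≡ r'.val [MOD g] := (h4 _ _).symm.trans (h3.trans (h4 _ _))
      exact Nat.ModEq.eq_of_lt_of_lt h5 r.isLt r'.isLt
    have h6 : p.val = p'.val := by
      dsimp only at h1
      rw [h2] at h1
      have h7 := Nat.ModEq.add_left_cancel' _ h1
      rw [mul_assoc, mul_assoc] at h7
      have h8 := Nat.ModEq.mul_left_cancel' hg.ne' h7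
      have h9 := Nat.ModEq.cancel_left_of_coprime (by rw [Nat.gcd_comm]; exact huvc) h8
      exact Nat.ModEq.eq_of_lt_of_lt h9 (ZMod.val_lt p) (ZMod.val_lt p')
    exact Prod.ext (Fin.ext h2) (ZMod.val_injective m h6)
  have hbij : Function.Bijective pos := by
    rw [Fintype.bijective_iff_injective_and_card]
    refine ⟨hinj, ?_⟩
    rw [Fintype.card_prod, Fintype.card_fin, ZMod.card, ZMod.card]
  -- congruence modulo `m` gives equality of positions
  have hcast : ∀ p q : ℕ, u * p ≡ u * q [MOD m] →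
      ((g * u * p : ℕ) : ZMod (g * m)) = ((g * u * q : ℕ) : ZMod (g * m)) := by
    intro p q hpq
    rw [ZMod.natCast_eq_natCast_iff, mul_assoc, mul_assoc]
    exact Nat.ModEq.mul_left' g hpq
  have hsub : ∀ (p : ZMod m) (c : ℕ), (p - (c : ZMod m)).val + c ≡ p.val [MOD m] := by
    intro p c
    rw [← ZMod.natCast_eq_natCast_iff]
    push_cast
    rw [ZMod.natCast_zmod_val, ZMod.natCast_zmod_val]
    ring
  have hshift : ∀ (r : Fin g) (p : ZMod m) (c : ℕ),
      pos (r, p - (c : ZMod m)) + ((g * u * c : ℕ) : ZMod (g * m)) = pos (r, p) := by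
    intro r p c
    rw [hpos]
    dsimp only
    rw [Nat.cast_add, Nat.cast_add, add_assoc, ← Nat.cast_add, ← mul_add,
      hcast _ _ (Nat.ModEq.mul_left u (hsub p c))]
  set fv : Fin g × ZMod m → Fin g × ZMod m := fun x =>
    if x.1.val = 0 then (⟨g - 1, by omega⟩, x.2 - (v : ZMod m))
    else (⟨x.1.val - 1, by have := x.1.isLt; omega⟩, x.2) with hfv
  have hfv1 : ∀ x, pos (fv x) + 1 = pos x := by
    rintro ⟨r, p⟩
    rw [hfv]
    dsimp only
    split_ifs with h0
    · have h1 := hshift r p v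
      rw [← h1, hpos]
      dsimp only
      have h2 : ((g * u * v : ℕ) : ZMod (g * m)) = ((g : ℕ) : ZMod (g * m)) := by
        have h3 : g * u * v ≡ g * 1 [MOD g * m] := by
          rw [mul_assoc]
          exact Nat.ModEq.mul_left' g huv
        rw [mul_one] at h3
        exact (ZMod.natCast_eq_natCast_iff _ _ _).mpr h3
      rw [h2, h0, Nat.cast_add, Nat.cast_add, Nat.cast_sub (by omega)]
      push_cast
      ring
    · rw [hpos]
      dsimp only
      rw [Nat.cast_add, Nat.cast_add, Nat.cast_sub (by omega)]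
      push_cast
      ring
  refine kill hn pos hbij (fun x => J x.1.val x.2.val) (fun x => C x.1.val x.2.val)
    (fun x => (x.1, x.2 - (a : ZMod m))) (fun x => (x.1, x.2 - (b : ZMod m))) fv
    (g * u * a) (g * u * b) (fun x => hshift x.1 x.2 a) (fun x => hshift x.1 x.2 b) hfv1
    ?_ ?_ hd
  · rintro ⟨r, p⟩
    have h1 := h r.val r.isLt p.val (ZMod.val_lt p)
    have h2 : ind (C (fv (r, p)).1.val (fv (r, p)).2.val) =
        (if r.val = 0 then ind (C (g - 1) (sb m p.val v)) else ind (C (r.val - 1) p.val)) := by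
      rw [hfv]
      dsimp only
      split_ifs with h0
      · dsimp only
        rw [val_sub_sb hm p v hv]
      · rfl
    dsimp only
    rw [h2, val_sub_sb hm p a ha, val_sub_sb hm p b hb]
    exact h1
  · rw [card_grid J, card_grid C]
    exact hcount

/-- **The kill criterion, one row.** -/
theorem kill1 {n u v a b : ℕ} (hn : 0 < n) (huv : u * v ≡ 1 [MOD n])
    (ha : a < n) (hb : b < n) (hv : v < n) (J C : ℕ → Prop) [DecidablePred J]
    [DecidablePred C]
    (h : ∀ p < n, ind (J p) + ind (J (sb n p a)) + ind (J (sb n p b)) +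
        ind (C (sb n p v)) = 2 * ind (C p) ∨
      ind (J p) + ind (J (sb n p a)) + ind (J (sb n p b)) + ind (C (sb n p v)) =
          2 * ind (C p) + 1)
    (hcount : n + 2 * cnt n C ≤ 4 * cnt n J)
    {d i : ℕ} (hd : d ≡ 2 ^ i * (1 + 2 ^ (u * a) + 2 ^ (u * b)) [MOD 2 ^ n - 1]) :
    ¬ V n d := by
  have h1 := killG (g := 1) (m := n) (u := u) (v := v) (a := a) (b := b) one_pos hn huv ha hb hv
    (fun _ => J) (fun _ => C) (by
      intro r hr p hp
      have hr0 : r = 0 := by omega
      subst hr0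
      simpa using h p hp) (by
      rw [Finset.sum_range_one, Finset.sum_range_one, one_mul]
      exact hcount) (d := d) (i := i) (by
      rw [one_mul, one_mul]
      exact hd)
  rwa [one_mul] at h1

theorem cnt_false (m : ℕ) : cnt m (fun _ => False) = 0 := by
  unfold cnt
  simp

/-- **The kill criterion without carries.** -/
theorem killCF {g m u v a b : ℕ} (hg : 0 < g) (hm : 0 < m) (huv : u * v ≡ 1 [MOD m])
    (ha : a < m) (hb : b < m) (hv : v < m) (J : ℕ → Prop) [DecidablePred J]
    (h : ∀ p < m, ind (J p) + ind (J (sb m p a)) + ind (J (sb m p b)) ≤ 1)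
    (hcount : m ≤ 4 * cnt m J)
    {d i : ℕ} (hd : d ≡ 2 ^ i * (1 + 2 ^ (g * u * a) + 2 ^ (g * u * b)) [MOD 2 ^ (g * m) - 1]) :
    ¬ V (g * m) d := by
  refine killG hg hm huv ha hb hv (fun _ => J) (fun _ _ => False) ?_ ?_ hd
  · intro r hr p hp
    have h1 := h p hp
    have h2 : ind False = 0 := if_neg (fun h => h)
    rw [h2]
    split_ifs <;> omega
  · rw [cnt_false]
    simp only [Finset.sum_const, Finset.card_range, smul_eq_mul, mul_zero, add_zero]
    nlinarith

/-- The rows of the triple lemma. -/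
theorem sum_triple (f0 f1 f2 : ℕ) (h : ℕ) :
    ∑ r ∈ Finset.range (2 * h + 1), (if r = 0 then f0 else if r % 2 = 1 then f1 else f2) =
      f0 + h * (f1 + f2) := by
  induction h with
  | zero => simp
  | succ h ih =>
    rw [show 2 * (h + 1) + 1 = 2 * h + 1 + 1 + 1 by ring, Finset.sum_range_succ,
      Finset.sum_range_succ, ih, if_neg (by omega), if_pos (by omega), if_neg (by omega),
      if_neg (by omega)]
    ring

/-- **The triple lemma.** -/
theorem killT {h m u v a b : ℕ} (hh : 0 < h) (hm : 0 < m) (huv : u * v ≡ 1 [MOD m])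
    (ha : a < m) (hb : b < m) (hv : v < m) (J0 J1 J2 C0 C1 : ℕ → Prop) [DecidablePred J0]
    [DecidablePred J1] [DecidablePred J2] [DecidablePred C0] [DecidablePred C1]
    (h0 : ∀ p < m, ind (J0 p) + ind (J0 (sb m p a)) + ind (J0 (sb m p b)) = 2 * ind (C0 p) ∨
      ind (J0 p) + ind (J0 (sb m p a)) + ind (J0 (sb m p b)) = 2 * ind (C0 p) + 1)
    (h1 : ∀ p < m, (ind (J1 p) + ind (J1 (sb m p a)) + ind (J1 (sb m p b)) = 2 * ind (C1 p) ∨
      ind (J1 p) + ind (J1 (sb m p a)) + ind (J1 (sb m p b)) = 2 * ind (C1 p) + 1))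
    (h1' : ∀ p < m, (ind (J1 p) + ind (J1 (sb m p a)) + ind (J1 (sb m p b)) + ind (C0 p) =
      2 * ind (C1 p) ∨ ind (J1 p) + ind (J1 (sb m p a)) + ind (J1 (sb m p b)) + ind (C0 p) =
      2 * ind (C1 p) + 1))
    (h2 : ∀ p < m, ind (J2 p) + ind (J2 (sb m p a)) + ind (J2 (sb m p b)) + ind (C1 p) ≤ 1)
    (hc0 : m + 2 * cnt m C0 ≤ 4 * cnt m J0)
    (hc1 : 2 * m + 2 * cnt m C1 ≤ 4 * (cnt m J1 + cnt m J2))
    {d i : ℕ} (hd : d ≡ 2 ^ i * (1 + 2 ^ ((2 * h + 1) * u * a) + 2 ^ ((2 * h + 1) * u * b))
      [MOD 2 ^ ((2 * h + 1) * m) - 1]) :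
    ¬ V ((2 * h + 1) * m) d := by
  have hf : ind False = 0 := if_neg (fun h => h)
  refine killG (g := 2 * h + 1) (by omega) hm huv ha hb hv
    (fun r p => if r = 0 then J0 p else if r % 2 = 1 then J1 p else J2 p)
    (fun r p => if r = 0 then C0 p else if r % 2 = 1 then C1 p else False) ?_ ?_ hd
  · intro r hr p hp
    by_cases hr0 : r = 0
    · subst hr0
      have e1 : ¬ (2 * h + 1 - 1 = 0) := by omega
      have e2 : ¬ ((2 * h + 1 - 1) % 2 = 1) := by omega
      simp only [e1, e2, if_true, if_false, hf, add_zero]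
      exact h0 p hp
    · by_cases hr1 : r % 2 = 1
      · by_cases hr2 : r = 1
        · subst hr2
          simp only [one_ne_zero, if_false, Nat.sub_self, if_true, Nat.one_mod]
          exact h1' p hp
        · have e1 : ¬ (r - 1 = 0) := by omega
          have e2 : ¬ ((r - 1) % 2 = 1) := by omega
          simp only [hr0, hr1, e1, e2, if_false, if_true, hf, add_zero]
          exact h1 p hp
      · have e1 : ¬ (r - 1 = 0) := by omega
        have e2 : (r - 1) % 2 = 1 := by omega
        simp only [hr0, hr1, e1, e2, if_false, if_true, hf, mul_zero, zero_add]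
        have := h2 p hp
        omega
  · have e1 : ∀ r ∈ Finset.range (2 * h + 1), cnt m (fun p => if r = 0 then J0 p else
        if r % 2 = 1 then J1 p else J2 p) =
        (if r = 0 then cnt m J0 else if r % 2 = 1 then cnt m J1 else cnt m J2) := by
      intro r _
      unfold cnt
      split_ifs <;> rfl
    have e2 : ∀ r ∈ Finset.range (2 * h + 1), cnt m (fun p => if r = 0 then C0 p else
        if r % 2 = 1 then C1 p else False) =
        (if r = 0 then cnt m C0 else if r % 2 = 1 then cnt m C1 else 0) := by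
      intro r _
      unfold cnt
      split_ifs <;> first | rfl | simp
    rw [Finset.sum_congr rfl e1, Finset.sum_congr rfl e2, sum_triple, sum_triple]
    nlinarith

end Pool.Agent.CE
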