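import Pool.Agent.Lib_helper89.CE.K9

/-!
# Cubic exponents (MP_85e36e_co): all shapes with three exponents, `n` even
-/

set_option autoImplicit false

namespace Pool.Agent.CE

open Pool.Agent.TV

section

variable {L : ℕ}

/-- the shape `{0, 2, w}` with `w ≤ L` -/
theorem caseM {g : ℕ} (hg : g % 2 = 1) (hL : 3 ≤ L) (hodd : L % 2 = 1) {u v : ZMod (2 * L)}
    (huv : u * v = 1) {w : ℕ} (hw : w % 2 = 1) (hwL : w ≤ L) {d : ℕ}
    (h : SP g (2 * L) d 0 (u * ((2 : ℕ) : ZMod (2 * L))) (u * (w : ZMod (2 * L))))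
    (hV : V (g * (2 * L)) d) : Con (g * (2 * L)) d := by
  have := nz hL
  have hun := unit_nat huv
  have hvlt := ZMod.val_lt v
  have hg0 : 0 < g := by omega
  by_cases hw1 : w = 1
  · subst hw1
    exact absurd hV (h.kill hg0 (by omega) huv (by omega) (by omega) (CF_zero L hL hodd))
  by_cases hwl : w = L
  · -- the shape `{0, 1, 1 + L}`
    subst hwl
    have hcop : Nat.Coprime (w - 2) (2 * w) := by
      have h1 : Nat.Coprime (w - 2) 2 := by
        rw [Nat.coprime_two_right, Nat.odd_iff]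
        omega
      have h2 : Nat.Coprime (w - 2) w := by
        have h3 : Nat.Coprime (w - 2) (w - 2 + 2) := by
          rw [Nat.coprime_self_add_right]
          exact h1
        rwa [show w - 2 + 2 = w by omega] at h3
      exact Nat.Coprime.mul_right h1 h2
    have hinv := ZMod.coe_mul_inv_eq_one (w - 2) hcop
    have hT := two_L (L := w)
    have hc2 : ((w - 2 : ℕ) : ZMod (2 * w)) = (w : ZMod (2 * w)) - 2 := by
      rw [Nat.cast_sub (by omega)]
      rfl
    obtain ⟨s, hs⟩ : ∃ s, w = 2 * s + 1 := ⟨w / 2, by omega⟩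
    have hs' : (w : ZMod (2 * w)) = 2 * s + 1 := by
      have := congrArg (Nat.cast : ℕ → ZMod (2 * w)) hs
      push_cast at this
      exact this
    have huv1 : (u * ((w - 2 : ℕ) : ZMod (2 * w))) *
        (v * ((w - 2 : ℕ) : ZMod (2 * w))⁻¹) = 1 := by
      rw [mul_mul_mul_comm, huv, hinv, one_mul]
    refine caseE2 hg hL hodd huv1 (d := d) ?_ hV
    apply SP.shift (by omega) (u * ((2 : ℕ) : ZMod (2 * w)))
    have e1 : (0 : ZMod (2 * w)) + u * ((2 : ℕ) : ZMod (2 * w)) =
        u * ((2 : ℕ) : ZMod (2 * w)) := zero_add _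
    have e2 : u * ((w - 2 : ℕ) : ZMod (2 * w)) * ((1 : ℕ) : ZMod (2 * w)) +
        u * ((2 : ℕ) : ZMod (2 * w)) = u * (w : ZMod (2 * w)) := by
      rw [hc2]
      push_cast
      ring
    have e3 : u * ((w - 2 : ℕ) : ZMod (2 * w)) * ((1 + w : ℕ) : ZMod (2 * w)) +
        u * ((2 : ℕ) : ZMod (2 * w)) = 0 := by
      rw [hc2]
      push_cast at hT ⊢
      linear_combination u * (w : ZMod (2 * w)) * hs' + u * (s : ZMod (2 * w)) * hT
    rw [e1, e2, e3]
    exact h.swap1.swap2
  by_cases hw3 : w = 3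
  · subst hw3
    have huv1 : (-u) * (-v) = 1 := by linear_combination huv
    refine caseE1 hg (by omega) hodd huv1 (d := d) ?_ hV
    apply SP.shift (by omega) (u * ((3 : ℕ) : ZMod (2 * L)))
    have e1 : (0 : ZMod (2 * L)) + u * ((3 : ℕ) : ZMod (2 * L)) =
        u * ((3 : ℕ) : ZMod (2 * L)) := zero_add _
    have e2 : -u * ((1 : ℕ) : ZMod (2 * L)) + u * ((3 : ℕ) : ZMod (2 * L)) =
        u * ((2 : ℕ) : ZMod (2 * L)) := by
      push_cast
      ring
    have e3 : -u * ((3 : ℕ) : ZMod (2 * L)) + u * ((3 : ℕ) : ZMod (2 * L)) = 0 := by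
      ring
    rw [e1, e2, e3]
    exact h.swap2.swap1.swap2
  by_cases hw5 : w = 5
  · subst hw5
    have hL7 : 7 ≤ L := by omega
    by_cases h7 : L = 7
    · subst h7
      exact absurd hV (h.kill hg0 (by omega) huv (by omega) (by omega)
        (CF_large 7 2 hodd (by omega) (by omega)))
    by_cases h9 : L = 9
    · subst h9
      by_cases hg1 : g = 1
      · subst hg1
        obtain ⟨i, hi⟩ := h.one
        exact absurd hV (E3_18 hun hvlt hi)
      · obtain ⟨k, rfl⟩ : ∃ k, g = 2 * k + 1 := ⟨g / 2, by omega⟩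
        obtain ⟨i, hi⟩ := h.nat'
        exact absurd hV (E3_T18 (by omega) hun hvlt hi)
    by_cases h13 : L = 13
    · subst h13
      by_cases hg1 : g = 1
      · subst hg1
        obtain ⟨i, hi⟩ := h.one
        exact absurd hV (E3_26 hun hvlt hi)
      · obtain ⟨k, rfl⟩ : ∃ k, g = 2 * k + 1 := ⟨g / 2, by omega⟩
        obtain ⟨i, hi⟩ := h.nat'
        exact absurd hV (E3_T26 (by omega) hun hvlt hi)
    exact absurd hV (h.kill hg0 (by omega) huv (by omega) (by omega)
      (CF_two L hodd (by omega) h13))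
  obtain ⟨c, rfl⟩ : ∃ c, w = 2 * c + 1 := ⟨w / 2, by omega⟩
  have hCF : CF (2 * L) 2 (2 * c + 1) := by
    rcases Nat.lt_or_ge L (4 * c) with h1 | h1
    · exact CF_large L c hodd h1 (by omega)
    · by_cases h2 : L = 4 * c + 1
      · subst h2
        exact CF_one c (by omega)
      · exact CF_small L c hodd (by omega) (by omega)
  exact absurd hV (h.kill hg0 (by omega) huv (by omega) (by omega) hCF)

/-- the shape `{0, 2, w}` -/
theorem caseN2 {g : ℕ} (hg : g % 2 = 1) (hL : 3 ≤ L) (hodd : L % 2 = 1) {u v : ZMod (2 * L)}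
    (huv : u * v = 1) {w : ℕ} (hw : w % 2 = 1) (hwL : w < 2 * L) {d : ℕ}
    (h : SP g (2 * L) d 0 (u * ((2 : ℕ) : ZMod (2 * L))) (u * (w : ZMod (2 * L))))
    (hV : V (g * (2 * L)) d) : Con (g * (2 * L)) d := by
  rcases Nat.lt_or_ge L w with h1 | h1
  · have huv1 : (-u) * (-v) = 1 := by linear_combination huv
    refine caseM hg hL hodd huv1 (w := 2 * L + 2 - w) (by omega) (by omega) (d := d) ?_ hV
    apply SP.shift (by omega) (u * ((2 : ℕ) : ZMod (2 * L)))
    have hc : ((2 * L + 2 - w : ℕ) : ZMod (2 * L)) = 2 - (w : ZMod (2 * L)) := by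
      rw [Nat.cast_sub (by omega), Nat.cast_add, ZMod.natCast_self, zero_add]
      rfl
    have e1 : (0 : ZMod (2 * L)) + u * ((2 : ℕ) : ZMod (2 * L)) =
        u * ((2 : ℕ) : ZMod (2 * L)) := zero_add _
    have e2 : -u * ((2 : ℕ) : ZMod (2 * L)) + u * ((2 : ℕ) : ZMod (2 * L)) = 0 := by
      ring
    have e3 : -u * ((2 * L + 2 - w : ℕ) : ZMod (2 * L)) + u * ((2 : ℕ) : ZMod (2 * L)) =
        u * (w : ZMod (2 * L)) := by
      rw [hc]
      push_cast
      ring
    rw [e1, e2, e3]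
    exact h.swap1
  · exact caseM hg hL hodd huv hw h1 h hV

end

/-- all shapes `{0, e, o}` with `gcd (e, o, m) = 1` -/
theorem caseB {g m e o : ℕ} (hg : g % 2 = 1) (hm0 : 0 < m) (hm : m % 2 = 0) (he : e % 2 = 0)
    (ho : o % 2 = 1) (hem : ¬ m ∣ e) (hcop : Nat.gcd (Nat.gcd e o) m = 1) {d : ℕ}
    (h : SP g m d 0 (e : ZMod m) (o : ZMod m)) (hV : V (g * m) d) : Con (g * m) d := by
  have hg0 : 0 < g := by omega
  set N := Nat.gcd e m with hN
  have hN0 : 0 < N := Nat.gcd_pos_of_pos_right e hm0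
  have hN2 : N % 2 = 0 := by
    have : 2 ∣ N := Nat.dvd_gcd (Nat.dvd_of_mod_eq_zero he) (Nat.dvd_of_mod_eq_zero hm)
    omega
  obtain ⟨L, hL⟩ : N ∣ m := Nat.gcd_dvd_right e m
  obtain ⟨e1, he1⟩ : N ∣ e := Nat.gcd_dvd_left e m
  have hcop1 : Nat.Coprime e1 L := by
    have h1 : Nat.gcd (N * e1) (N * L) = N := by rw [← he1, ← hL]
    rw [Nat.gcd_mul_left] at h1
    exact Nat.eq_of_mul_eq_mul_left hN0 (by rw [h1, mul_one])
  have hcopo : Nat.Coprime o N := by
    have h1 : Nat.gcd (Nat.gcd e o) m = Nat.gcd o N := by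
      rw [hN, Nat.gcd_comm e o, Nat.gcd_assoc]
    unfold Nat.Coprime
    rw [← h1]
    exact hcop
  clear_value N
  subst hL he1
  have hL1 : 1 < L := by
    rcases Nat.lt_or_ge 1 L with h1 | h1
    · exact h1
    · exfalso
      have hL01 : L = 0 ∨ L = 1 := by omega
      rcases hL01 with rfl | rfl
      · simp at hm0
      · apply hem
        rw [mul_one]
        exact dvd_mul_right N e1
  by_cases hcase : L % 2 = 0 ∨ 4 ≤ N
  · -- no collisions
    have hCF : CF (N * L) (N * (e1 % L)) (o % (N * L)) := by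
      have c1 : Nat.Coprime (e1 % L) L := by
        unfold Nat.Coprime
        rw [(Nat.mod_modEq e1 L).gcd_eq]
        exact hcop1
      have c2 : Nat.Coprime (o % (N * L)) N := by
        have h1 : o % (N * L) ≡ o [MOD N] := (Nat.mod_modEq o (N * L)).of_dvd (dvd_mul_right N L)
        unfold Nat.Coprime
        rw [h1.gcd_eq]
        exact hcopo
      have c3 : N * (e1 % L) < N * L :=
        Nat.mul_lt_mul_of_pos_left (Nat.mod_lt _ (by omega)) hN0
      have c4 : o % (N * L) < N * L := Nat.mod_lt _ hm0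
      rcases Nat.mod_two_eq_zero_or_one L with h1 | h1
      · exact CF_even hN0 hN2 hL1 h1 c1 c2 c3 c4
      · exact CF_odd (by omega) hN2 hL1 h1 c1 c2 c3 c4
    have hSP : SP g (N * L) d 0 (1 * ((N * (e1 % L) : ℕ) : ZMod (N * L)))
        (1 * ((o % (N * L) : ℕ) : ZMod (N * L))) := by
      have e1' : ((N * (e1 % L) : ℕ) : ZMod (N * L)) = ((N * e1 : ℕ) : ZMod (N * L)) := by
        rw [ZMod.natCast_eq_natCast_iff]
        exact Nat.ModEq.mul_left' N (Nat.mod_modEq e1 L)
      rw [one_mul, one_mul, ZMod.natCast_mod, e1']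
      exact h
    exact absurd hV (hSP.kill hg0 hm0 (one_mul 1)
      (Nat.mul_lt_mul_of_pos_left (Nat.mod_lt _ (by omega)) hN0) (Nat.mod_lt _ hm0) hCF)
  · -- `N = 2`, `L` odd
    push Not at hcase
    have hN2' : N = 2 := by omega
    subst hN2'
    have hLodd : L % 2 = 1 := by omega
    have hL3 : 3 ≤ L := by omega
    have := nz hL3
    obtain ⟨x, hx2, hxc, hx⟩ : ∃ x : ℕ, x % 2 = 1 ∧ Nat.Coprime x L ∧
        ((2 * x : ℕ) : ZMod (2 * L)) = ((2 * e1 : ℕ) : ZMod (2 * L)) := by
      rcases Nat.mod_two_eq_zero_or_one e1 with h1 | h1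
      · refine ⟨e1 + L, by omega, ?_, ?_⟩
        · rw [Nat.coprime_add_self_left]
          exact hcop1
        · rw [Nat.mul_add, Nat.cast_add, ZMod.natCast_self, add_zero]
      · exact ⟨e1, h1, hcop1, rfl⟩
    have hxcop : Nat.Coprime x (2 * L) := by
      refine Nat.Coprime.mul_right ?_ hxc
      rw [Nat.coprime_two_right, Nat.odd_iff]
      exact hx2
    have huv := ZMod.coe_mul_inv_eq_one x hxcop
    set u : ZMod (2 * L) := (x : ZMod (2 * L)) with hu
    set v : ZMod (2 * L) := (x : ZMod (2 * L))⁻¹ with hv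
    set w : ℕ := (v * (o : ZMod (2 * L))).val with hw
    have hwc : (w : ZMod (2 * L)) = v * (o : ZMod (2 * L)) := by
      rw [hw, ZMod.natCast_zmod_val]
    have hw2 : w % 2 = 1 := by
      have h1 : ((w : ℕ) : ZMod (2 * L)) = ((v.val * o : ℕ) : ZMod (2 * L)) := by
        rw [hwc]
        push_cast
        rw [ZMod.natCast_zmod_val]
      rw [ZMod.natCast_eq_natCast_iff] at h1
      have h2 : w ≡ v.val * o [MOD 2] := h1.of_dvd (dvd_mul_right 2 L)
      have h3 := (unit_odd (by omega) (by omega) huv).2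
      unfold Nat.ModEq at h2
      rw [h2, Nat.mul_mod, h3, ho]
    have hwlt : w < 2 * L := ZMod.val_lt _
    refine caseN2 hg hL3 hLodd huv hw2 hwlt (d := d) ?_ hV
    have e1' : u * ((2 : ℕ) : ZMod (2 * L)) = ((2 * e1 : ℕ) : ZMod (2 * L)) := by
      rw [← hx]
      push_cast
      ring
    have e2' : u * (w : ZMod (2 * L)) = (o : ZMod (2 * L)) := by
      rw [hwc]
      linear_combination (o : ZMod (2 * L)) * huv
    rw [e1', e2']
    exact h

end Pool.Agent.CE
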