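import Pool.Agent.Lib_helper89.CE.K10

/-!
# Cubic exponents (MP_85e36e_co): the classification for `n` even
-/

set_option autoImplicit false

namespace Pool.Agent.CE

open Pool.Agent.TV

/-- exponents with two binary digits -/
theorem gold_odd {n k : ℕ} (hn : 0 < n) (hcop : Nat.Coprime (2 ^ k + 1) (2 ^ n - 1)) :
    Odd (n / Nat.gcd k n) := by
  by_contra hodd
  rw [Nat.not_odd_iff_even] at hodd
  set h := Nat.gcd k n with hh
  have hh0 : 0 < h := Nat.gcd_pos_of_pos_right k hn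
  obtain ⟨k', hk'⟩ : h ∣ k := Nat.gcd_dvd_left k n
  obtain ⟨n', hn'⟩ : h ∣ n := Nat.gcd_dvd_right k n
  have hc : Nat.Coprime k' n' := by
    have h1 : Nat.gcd (h * k') (h * n') = h := by rw [← hk', ← hn']
    rw [Nat.gcd_mul_left] at h1
    exact Nat.eq_of_mul_eq_mul_left hh0 (by rw [h1, mul_one])
  clear_value h
  subst hk' hn'
  rw [Nat.mul_div_cancel_left n' hh0] at hodd
  obtain ⟨t, ht⟩ := even_iff_two_dvd.mp hodd
  subst ht
  have hk'odd : Odd k' := by
    rw [← Nat.coprime_two_right]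
    exact Nat.Coprime.coprime_mul_right_right hc
  have h1 : 2 ^ h + 1 ∣ 2 ^ (h * k') + 1 := by
    have := Odd.nat_add_dvd_pow_add_pow (2 ^ h) 1 hk'odd
    rwa [one_pow, ← pow_mul] at this
  have h2 : 2 ^ h + 1 ∣ 2 ^ (h * (2 * t)) - 1 := by
    have e1 : 2 ^ h + 1 ∣ (2 ^ h) ^ 2 - 1 ^ 2 := by
      rw [Nat.sq_sub_sq]
      exact dvd_mul_right _ _
    have e2 := Nat.sub_dvd_pow_sub_pow ((2 ^ h) ^ 2) (1 ^ 2) t
    have e3 := e1.trans e2
    have e4 : ((2 ^ h) ^ 2) ^ t = 2 ^ (h * (2 * t)) := by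
      rw [← pow_mul, ← pow_mul]
    rw [one_pow, one_pow, e4] at e3
    exact e3
  have h3 := Nat.dvd_gcd h1 h2
  unfold Nat.Coprime at hcop
  rw [hcop, Nat.dvd_one] at h3
  have : 0 < 2 ^ h := by positivity
  omega

theorem cop_of {n d x j : ℕ} (hd : Nat.Coprime d (2 ^ n - 1)) (h : d ≡ 2 ^ j * x [MOD 2 ^ n - 1]) :
    Nat.Coprime x (2 ^ n - 1) := by
  have h1 : Nat.gcd (2 ^ j * x) (2 ^ n - 1) = 1 := by
    rw [← h.gcd_eq]
    exact hd
  exact Nat.Coprime.coprime_mul_left h1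

theorem caseGold {n k j d : ℕ} (hn : 0 < n) (hd : Nat.Coprime d (2 ^ n - 1))
    (h : d ≡ 2 ^ j * (2 ^ k + 1) [MOD 2 ^ n - 1]) : Con n d := by
  by_cases hnk : n ∣ k
  · left
    refine ⟨j + 1, ?_⟩
    obtain ⟨t, rfl⟩ := hnk
    rw [← ZMod.natCast_eq_natCast_iff] at h ⊢
    rw [h]
    push_cast
    rw [pow_mul, two_pow_n, one_pow, pow_succ]
    ring
  · right
    refine ⟨2 ^ k + 1, j, Or.inl h, Or.inl ⟨k, ?_, gold_odd hn (cop_of hd h), rfl⟩⟩
    rcases Nat.eq_zero_or_pos k with rfl | h0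
    · exact absurd (dvd_zero n) hnk
    · exact h0

theorem topA {n a b c d : ℕ} (hn : 0 < n) (hn2 : n % 2 = 0) (hd : Nat.Coprime d (2 ^ n - 1))
    (hab : a % 2 = b % 2) (hac : a % 2 ≠ c % 2)
    (h : d ≡ 2 ^ a + 2 ^ b + 2 ^ c [MOD 2 ^ n - 1]) (hV : V n d) : Con n d := by
  obtain ⟨n1, rfl⟩ : ∃ n1, n = n1 + 1 := ⟨n - 1, by omega⟩
  have hn1 : n1 % 2 = 1 := by omega
  have hpar : (n1 * a) % 2 = a % 2 := by
    rw [Nat.mul_mod, hn1, one_mul, Nat.mod_mod]
  set E := b + n1 * a with hE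
  set O := c + n1 * a with hO
  have hE2 : E % 2 = 0 := by omega
  have hO2 : O % 2 = 1 := by omega
  have key : ∀ x : ℕ, (2 : ZMod (2 ^ (n1 + 1) - 1)) ^ a * 2 ^ (x + n1 * a) = 2 ^ x := by
    intro x
    have e1 : (2 : ZMod (2 ^ (n1 + 1) - 1)) ^ a * 2 ^ (x + n1 * a) =
        2 ^ x * (2 ^ (n1 + 1)) ^ a := by
      rw [← pow_mul, ← pow_add, ← pow_add]
      congr 1
      ring
    rw [e1, two_pow_n, one_pow, mul_one]
  have h1 : (d : ZMod (2 ^ (n1 + 1) - 1)) = 2 ^ a * (1 + 2 ^ E + 2 ^ O) := by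
    have h2 := (ZMod.natCast_eq_natCast_iff _ _ _).mpr h
    push_cast at h2
    rw [h2, mul_add, mul_add, hE, hO, key, key, mul_one]
  clear_value E O
  by_cases hEn : n1 + 1 ∣ E
  · obtain ⟨t, ht⟩ := hEn
    obtain ⟨k, hk⟩ : ∃ k, O = k + 1 := ⟨O - 1, by omega⟩
    apply caseGold (k := k) (j := a + 1) hn hd
    rw [← ZMod.natCast_eq_natCast_iff, h1, ht, hk]
    push_cast
    rw [pow_mul, two_pow_n, one_pow]
    ring
  · set g := Nat.gcd (Nat.gcd E O) (n1 + 1) with hg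
    have hg0 : 0 < g := Nat.gcd_pos_of_pos_right _ hn
    obtain ⟨e, he⟩ : g ∣ E := (Nat.gcd_dvd_left _ _).trans (Nat.gcd_dvd_left _ _)
    obtain ⟨o, ho⟩ : g ∣ O := (Nat.gcd_dvd_left _ _).trans (Nat.gcd_dvd_right _ _)
    obtain ⟨m, hm⟩ : g ∣ n1 + 1 := Nat.gcd_dvd_right _ _
    have hcop : Nat.gcd (Nat.gcd e o) m = 1 := by
      have h2 : Nat.gcd (Nat.gcd (g * e) (g * o)) (g * m) = g := by rw [← he, ← ho, ← hm]
      rw [Nat.gcd_mul_left, Nat.gcd_mul_left] at h2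
      exact Nat.eq_of_mul_eq_mul_left hg0 (by rw [h2, mul_one])
    clear_value g
    have hgo : g % 2 = 1 ∧ o % 2 = 1 := by
      rw [ho, Nat.mul_mod] at hO2
      rcases Nat.mod_two_eq_zero_or_one g with h3 | h3 <;>
        rcases Nat.mod_two_eq_zero_or_one o with h4 | h4 <;> simp [h3, h4] at hO2 ⊢
    have he2 : e % 2 = 0 := by
      rw [he, Nat.mul_mod, hgo.1] at hE2
      omega
    have hm2 : m % 2 = 0 := by
      rw [hm, Nat.mul_mod, hgo.1] at hn2
      omega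
    have hm0 : 0 < m := by
      rcases Nat.eq_zero_or_pos m with h3 | h3
      · rw [h3, mul_zero] at hm
        omega
      · exact h3
    have hem : ¬ m ∣ e := by
      intro hc
      apply hEn
      rw [hm, he]
      exact Nat.mul_dvd_mul_left g hc
    rw [hm] at h1 hV ⊢
    refine caseB hgo.1 hm0 hm2 he2 hgo.2 hem hcop (d := d) ?_ hV
    refine ⟨a, ?_⟩
    rw [h1, pg_zero, pg_cast, pg_cast, ← he, ← ho]

theorem classify {n a b c d : ℕ} (hn : 0 < n) (hn2 : n % 2 = 0) (hd : Nat.Coprime d (2 ^ n - 1))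
    (h : d ≡ 2 ^ a + 2 ^ b + 2 ^ c [MOD 2 ^ n - 1]) (hV : V n d) : Con n d := by
  by_cases hab : a % 2 = b % 2
  · by_cases hac : a % 2 = c % 2
    · -- all equal: `3` divides `d`
      exfalso
      have p3 : ∀ x : ℕ, 2 ^ x % 3 = if x % 2 = 0 then 1 else 2 := by
        intro x
        induction x with
        | zero => rfl
        | succ x ih =>
          rw [pow_succ, Nat.mul_mod, ih]
          rcases Nat.mod_two_eq_zero_or_one x with h1 | h1
          · rw [if_pos h1, if_neg (by omega)]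
          · rw [if_neg (by omega), if_pos (by omega)]
      have h3n : 3 ∣ 2 ^ n - 1 := by
        have h1 := p3 n
        rw [if_pos hn2] at h1
        have h2 : 0 < 2 ^ n := by positivity
        omega
      have h3s : 3 ∣ 2 ^ a + 2 ^ b + 2 ^ c := by
        have ha := p3 a
        have hb := p3 b
        have hc := p3 c
        rcases Nat.mod_two_eq_zero_or_one a with h1 | h1
        · rw [if_pos h1] at ha
          rw [if_pos (by omega)] at hb hc
          omega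
        · rw [if_neg (by omega)] at ha hb hc
          omega
      have h3d : 3 ∣ d := ((h.of_dvd h3n).dvd_iff (dvd_refl 3)).mpr h3s
      have h4 := Nat.dvd_gcd h3d h3n
      unfold Nat.Coprime at hd
      rw [hd] at h4
      norm_num at h4
    · exact topA hn hn2 hd hab hac h hV
  · by_cases hac : a % 2 = c % 2
    · refine topA (a := a) (b := c) (c := b) hn hn2 hd hac hab ?_ hV
      rw [show 2 ^ a + 2 ^ c + 2 ^ b = 2 ^ a + 2 ^ b + 2 ^ c by ring]
      exact h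
    · refine topA (a := b) (b := c) (c := a) hn hn2 hd (by omega) (by omega) ?_ hV
      rw [show 2 ^ b + 2 ^ c + 2 ^ a = 2 ^ a + 2 ^ b + 2 ^ c by ring]
      exact h

theorem pow_inv (n i : ℕ) (hn : 0 < n) : (2 : ZMod (2 ^ n - 1)) ^ i * 2 ^ ((n - 1) * i) = 1 := by
  rw [← pow_add]
  have : i + (n - 1) * i = n * i := by
    obtain ⟨m, rfl⟩ : ∃ m, n = m + 1 := ⟨n - 1, by omega⟩
    rw [Nat.add_sub_cancel]
    ring
  rw [this, pow_mul, two_pow_n, one_pow]

/-- the conclusion passes to the inverse -/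
theorem Con.inv {n d f : ℕ} (hn : 0 < n) (h : d * f ≡ 1 [MOD 2 ^ n - 1]) (hf : Con n f) :
    Con n d := by
  have h1 := (ZMod.natCast_eq_natCast_iff _ _ _).mpr h
  push_cast at h1
  rcases hf with ⟨i, hi⟩ | ⟨e, i, hi | hi, hfam⟩
  · left
    refine ⟨(n - 1) * i, ?_⟩
    have h2 := (ZMod.natCast_eq_natCast_iff _ _ _).mpr hi
    rw [← ZMod.natCast_eq_natCast_iff]
    push_cast at h2 ⊢
    rw [h2] at h1
    have h3 := pow_inv n i hn
    linear_combination (2 : ZMod (2 ^ n - 1)) ^ ((n - 1) * i) * h1 - (d : ZMod (2 ^ n - 1)) * h3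
  · right
    refine ⟨e, (n - 1) * i, Or.inr ?_, hfam⟩
    have h2 := (ZMod.natCast_eq_natCast_iff _ _ _).mpr hi
    rw [← ZMod.natCast_eq_natCast_iff]
    push_cast at h2 ⊢
    rw [h2] at h1
    have h3 := pow_inv n i hn
    linear_combination (2 : ZMod (2 ^ n - 1)) ^ ((n - 1) * i) * h1 -
      (d : ZMod (2 ^ n - 1)) * e * h3
  · right
    refine ⟨e, (n - 1) * i, Or.inl ?_, hfam⟩
    have h2 := (ZMod.natCast_eq_natCast_iff _ _ _).mpr hi
    rw [← ZMod.natCast_eq_natCast_iff]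
    push_cast at h2 ⊢
    have h3 := pow_inv n i hn
    linear_combination (-(d : ZMod (2 ^ n - 1))) * h3 +
      (-(2 : ZMod (2 ^ n - 1)) ^ ((n - 1) * i) * d) * h2 +
      (2 : ZMod (2 ^ n - 1)) ^ ((n - 1) * i) * e * h1

end Pool.Agent.CE
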