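import Pool.Agent.Lib_helper89.CE.K1

/-!
# Cubic exponents (MP_85e36e_co): sets without collisions for `{0, 2, 2 c + 1}` modulo `2 L`
-/

set_option autoImplicit false

namespace Pool.Agent.CE

open Pool.Agent.TV

theorem cnt_ge {m k : ℕ} {P : ℕ → Prop} [DecidablePred P] (f : ℕ → ℕ)
    (h1 : ∀ i < k, f i < m ∧ P (f i)) (h2 : ∀ i < k, ∀ j < k, f i = f j → i = j) :
    k ≤ cnt m P := by
  have h3 : ((Finset.range k).image f).card = k := by
    rw [Finset.card_image_of_injOn, Finset.card_range]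
    intro i hi j hj hij
    exact h2 i (Finset.mem_range.mp hi) j (Finset.mem_range.mp hj) hij
  unfold cnt
  rw [← h3]
  refine Finset.card_le_card ?_
  intro x hx
  obtain ⟨i, hi, rfl⟩ := Finset.mem_image.mp hx
  have := h1 i (Finset.mem_range.mp hi)
  exact Finset.mem_filter.mpr ⟨Finset.mem_range.mpr this.1, this.2⟩

theorem cnt_le {m : ℕ} {P : ℕ → Prop} [DecidablePred P] (S : Finset ℕ)
    (h : ∀ p < m, P p → p ∈ S) : cnt m P ≤ S.card := by
  unfold cnt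
  refine Finset.card_le_card ?_
  intro x hx
  obtain ⟨hx1, hx2⟩ := Finset.mem_filter.mp hx
  exact h x (Finset.mem_range.mp hx1) hx2

theorem cnt_le_one {m : ℕ} (x : ℕ) : cnt m (fun p => p = x) ≤ 1 := by
  have := cnt_le (m := m) (P := fun p => p = x) {x} (by intro p _ hp; simpa using hp)
  simpa using this

theorem cnt_le_two {m : ℕ} (x y : ℕ) : cnt m (fun p => p = x ∨ p = y) ≤ 2 := by
  have := cnt_le (m := m) (P := fun p => p = x ∨ p = y) {x, y} (by intro p _ hp; simpa using hp)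
  exact this.trans Finset.card_le_two

theorem cnt_le_three {m : ℕ} (x y z : ℕ) : cnt m (fun p => p = x ∨ p = y ∨ p = z) ≤ 3 := by
  have := cnt_le (m := m) (P := fun p => p = x ∨ p = y ∨ p = z) {x, y, z}
    (by intro p _ hp; simpa using hp)
  exact this.trans Finset.card_le_three

theorem ind_excl {X Y Z : Prop} [Decidable X] [Decidable Y] [Decidable Z] (h1 : ¬ (X ∧ Y))
    (h2 : ¬ (X ∧ Z)) (h3 : ¬ (Y ∧ Z)) : ind X + ind Y + ind Z ≤ 1 := by
  unfold ind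
  by_cases hX : X <;> by_cases hY : Y <;> by_cases hZ : Z <;> simp [hX, hY, hZ] <;> tauto

/-- A set without collisions for `{0, a, b}` modulo `m` of density at least `1 / 4`. -/
def CF (m a b : ℕ) : Prop :=
  ∃ (J : ℕ → Prop) (_ : DecidablePred J),
    (∀ p < m, ind (J p) + ind (J (sb m p a)) + ind (J (sb m p b)) ≤ 1) ∧ m ≤ 4 * cnt m J

theorem killCF' {g m u v a b : ℕ} (hg : 0 < g) (hm : 0 < m) (huv : u * v ≡ 1 [MOD m])
    (ha : a < m) (hb : b < m) (hv : v < m) (hCF : CF m a b)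
    {d i : ℕ} (hd : d ≡ 2 ^ i * (1 + 2 ^ (g * u * a) + 2 ^ (g * u * b)) [MOD 2 ^ (g * m) - 1]) :
    ¬ V (g * m) d := by
  obtain ⟨J, hJ, h1, h2⟩ := hCF
  exact killCF hg hm huv ha hb hv J h1 h2 hd

/-- `c = 0`. -/
theorem CF_zero (L : ℕ) (hL : 3 ≤ L) (hodd : L % 2 = 1) : CF (2 * L) 2 1 := by
  refine ⟨fun p => (p % 4 = 0 ∧ p + 6 ≤ 2 * L) ∨ p + 3 = 2 * L, fun p => by dsimp only; infer_instance,
    ?_, ?_⟩
  · intro p hp
    apply ind_excl
    · unfold sb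
      dsimp only
      split_ifs <;> omega
    · unfold sb
      dsimp only
      split_ifs <;> omega
    · unfold sb
      dsimp only
      split_ifs <;> omega
  · have h := cnt_ge (m := 2 * L) (k := (L + 1) / 2)
      (P := fun p => (p % 4 = 0 ∧ p + 6 ≤ 2 * L) ∨ p + 3 = 2 * L)
      (fun i => if i < (L - 1) / 2 then 4 * i else 2 * L - 3) (by
        intro i hi
        split_ifs <;> omega) (by
        intro i hi j hj
        split_ifs <;> omega)
    omega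

/-- `L < 4 c`. -/
theorem CF_large (L c : ℕ) (hodd : L % 2 = 1) (h1 : L < 4 * c) (h2 : 2 * c + 3 ≤ L) :
    CF (2 * L) 2 (2 * c + 1) := by
  refine ⟨fun p => (p % 4 = 0 ∧ 4 ≤ p ∧ p + 2 * L < 8 * c) ∨
    (p % 4 = 2 ∧ 8 * c + 4 ≤ p + 2 * L ∧ p < 4 * c) ∨ (p % 4 = 0 ∧ 4 * c + 4 ≤ p) ∨
    p = 2 * c + 1 ∨ p = 6 * c + 1 ∨ p + 2 * L = 6 * c + 1,
    fun p => by dsimp only; infer_instance, ?_, ?_⟩
  · intro p hp
    apply ind_excl
    · unfold sb
      split_ifs <;> omega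
    · unfold sb
      split_ifs <;> omega
    · unfold sb
      split_ifs <;> omega
  · have h := cnt_ge (m := 2 * L) (k := (L + 1) / 2)
      (P := fun p => (p % 4 = 0 ∧ 4 ≤ p ∧ p + 2 * L < 8 * c) ∨
        (p % 4 = 2 ∧ 8 * c + 4 ≤ p + 2 * L ∧ p < 4 * c) ∨ (p % 4 = 0 ∧ 4 * c + 4 ≤ p) ∨
        p = 2 * c + 1 ∨ p = 6 * c + 1 ∨ p + 2 * L = 6 * c + 1)
      (fun i => if i < (4 * c - L - 1) / 2 then 4 * i + 4 else if i < c - 1 then 4 * i + 6 else
        if i < (L - 3) / 2 then 4 * i + 8 else if i = (L - 3) / 2 then 2 * c + 1 else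
        if 6 * c + 1 < 2 * L then 6 * c + 1 else 6 * c + 1 - 2 * L) (by
        intro i hi
        split_ifs <;> omega) (by
        intro i hi j hj
        split_ifs <;> omega)
    omega

/-- `4 c < L`, the general case. -/
theorem CF_small (L c : ℕ) (hodd : L % 2 = 1) (h1 : 4 * c + 3 ≤ L) (h2 : 3 ≤ c) :
    CF (2 * L) 2 (2 * c + 1) := by
  refine ⟨fun p => p = 4 ∨ (p % 4 = 2 ∧ 10 ≤ p ∧ p < 4 * c) ∨ p = 4 * c + 4 ∨
    (p % 4 = 2 ∧ 4 * c + 10 ≤ p ∧ p < 8 * c) ∨ p = 8 * c + 4 ∨ (p % 4 = 0 ∧ 8 * c + 12 ≤ p) ∨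
    p = 2 * c + 1 ∨ p = 2 * c + 7 ∨ p = 6 * c + 1 ∨ p = 6 * c + 7,
    fun p => by dsimp only; infer_instance, ?_, ?_⟩
  · intro p hp
    apply ind_excl
    · unfold sb
      split_ifs <;> omega
    · unfold sb
      split_ifs <;> omega
    · unfold sb
      split_ifs <;> omega
  · have h := cnt_ge (m := 2 * L) (k := 2 * c - 1 + (L - 4 * c - 5) / 2 + 4)
      (P := fun p => p = 4 ∨ (p % 4 = 2 ∧ 10 ≤ p ∧ p < 4 * c) ∨ p = 4 * c + 4 ∨
        (p % 4 = 2 ∧ 4 * c + 10 ≤ p ∧ p < 8 * c) ∨ p = 8 * c + 4 ∨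
        (p % 4 = 0 ∧ 8 * c + 12 ≤ p) ∨
        p = 2 * c + 1 ∨ p = 2 * c + 7 ∨ p = 6 * c + 1 ∨ p = 6 * c + 7)
      (fun i => if i = 0 then 2 * c + 1 else if i = 1 then 2 * c + 7 else
        if i = 2 then 6 * c + 1 else if i = 3 then 6 * c + 7 else
        if i = 4 then 4 else if i ≤ c + 2 then 4 * (i - 4) + 6 else
        if i = c + 3 then 4 * c + 4 else if i ≤ 2 * c + 1 then 4 * (i - 4) + 10 else
        if i = 2 * c + 2 then 8 * c + 4 else 4 * (i - 4) + 16) (by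
        intro i hi
        split_ifs <;> omega) (by
        intro i hi j hj
        split_ifs <;> omega)
    omega

/-- `L = 4 c + 1`. -/
theorem CF_one (c : ℕ) (h2 : 3 ≤ c) : CF (2 * (4 * c + 1)) 2 (2 * c + 1) := by
  refine ⟨fun p => (p % 4 = 2 ∧ 10 ≤ p ∧ p < 4 * c) ∨ p = 4 * c + 4 ∨
    (p % 4 = 2 ∧ 4 * c + 10 ≤ p ∧ p < 8 * c) ∨
    p = 2 * c + 1 ∨ p = 2 * c + 7 ∨ p = 6 * c + 1 ∨ p = 6 * c + 7,
    fun p => by dsimp only; infer_instance, ?_, ?_⟩
  · intro p hp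
    apply ind_excl
    · unfold sb
      split_ifs <;> omega
    · unfold sb
      split_ifs <;> omega
    · unfold sb
      split_ifs <;> omega
  · have h := cnt_ge (m := 2 * (4 * c + 1)) (k := 2 * c + 1)
      (P := fun p => (p % 4 = 2 ∧ 10 ≤ p ∧ p < 4 * c) ∨ p = 4 * c + 4 ∨
        (p % 4 = 2 ∧ 4 * c + 10 ≤ p ∧ p < 8 * c) ∨
        p = 2 * c + 1 ∨ p = 2 * c + 7 ∨ p = 6 * c + 1 ∨ p = 6 * c + 7)
      (fun i => if i = 0 then 2 * c + 1 else if i = 1 then 2 * c + 7 else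
        if i = 2 then 6 * c + 1 else if i = 3 then 6 * c + 7 else
        if i ≤ c + 1 then 4 * (i - 4) + 10 else
        if i = c + 2 then 4 * c + 4 else 4 * (i - 4) + 14) (by
        intro i hi
        split_ifs <;> omega) (by
        intro i hi j hj
        split_ifs <;> omega)
    omega

/-- `{0, 2, 5}` modulo `8 r + 7 s`. -/
theorem CF_five (r s : ℕ) (h : 9 ≤ 8 * r + 7 * s) : CF (8 * r + 7 * s) 2 5 := by
  refine ⟨fun p => (p < 8 * r ∧ p % 8 ≤ 1) ∨ (8 * r ≤ p ∧ (p - 8 * r) % 7 ≤ 1),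
    fun p => by dsimp only; infer_instance, ?_, ?_⟩
  · intro p hp
    apply ind_excl
    · unfold sb
      split_ifs <;> omega
    · unfold sb
      split_ifs <;> omega
    · unfold sb
      split_ifs <;> omega
  · have h := cnt_ge (m := 8 * r + 7 * s) (k := 2 * (r + s))
      (P := fun p => (p < 8 * r ∧ p % 8 ≤ 1) ∨ (8 * r ≤ p ∧ (p - 8 * r) % 7 ≤ 1))
      (fun i => if i < 2 * r then 8 * (i / 2) + i % 2 else
        8 * r + 7 * ((i - 2 * r) / 2) + i % 2) (by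
        intro i hi
        split_ifs <;> omega) (by
        intro i hi j hj
        split_ifs <;> omega)
    omega

/-- `{0, 2, 5}` modulo `34`. -/
theorem CF_34 : CF 34 2 5 := by
  refine ⟨fun p => p ∈ ({0, 1, 7, 8, 14, 15, 21, 22, 28} : Finset ℕ),
    fun p => by dsimp only; infer_instance, ?_, ?_⟩
  · decide
  · decide

/-- `{0, 2, 5}` modulo `2 L`. -/
theorem CF_two (L : ℕ) (hodd : L % 2 = 1) (h1 : 11 ≤ L) (h2 : L ≠ 13) : CF (2 * L) 2 5 := by
  by_cases h3 : L = 17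
  · subst h3
    exact CF_34
  · have h4 := CF_five (2 * L - 7 * ((2 * L + 7) / 8)) (8 * ((2 * L + 7) / 8) - 2 * L)
      (by omega)
    have h5 : 8 * (2 * L - 7 * ((2 * L + 7) / 8)) + 7 * (8 * ((2 * L + 7) / 8) - 2 * L) =
        2 * L := by omega
    rwa [h5] at h4

end Pool.Agent.CE
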