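import Pool.Agent.Lib_helper89.CE.K2

/-!
# Cubic exponents (MP_85e36e_co): additions with carries, one row
-/

set_option autoImplicit false

namespace Pool.Agent.CE

open Pool.Agent.TV

theorem sb_cases {m p a : ℕ} (hp : p < m) (ha : a < m) :
    (a ≤ p ∧ sb m p a + a = p) ∨ (p < a ∧ sb m p a + a = p + m) := by
  unfold sb
  split_ifs <;> omega

theorem cond_no {A B D E F : Prop} [Decidable A] [Decidable B] [Decidable D] [Decidable E]
    [Decidable F] (hF : ¬ F) (h1 : ¬ (A ∧ B)) (h2 : ¬ (A ∧ D)) (h3 : ¬ (A ∧ E))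
    (h4 : ¬ (B ∧ D)) (h5 : ¬ (B ∧ E)) (h6 : ¬ (D ∧ E)) :
    ind A + ind B + ind D + ind E = 2 * ind F ∨
      ind A + ind B + ind D + ind E = 2 * ind F + 1 := by
  unfold ind
  by_cases hA : A <;> by_cases hB : B <;> by_cases hD : D <;> by_cases hE : E <;>
    simp [hA, hB, hD, hE, hF] <;> tauto

theorem ind_of {A : Prop} [Decidable A] (h : A) : ind A = 1 := if_pos h

theorem cond_yes {A B D E F : Prop} [Decidable A] [Decidable B] [Decidable D] [Decidable E]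
    [Decidable F] (hF : F) (h1 : 2 ≤ ind A + ind B + ind D + ind E)
    (h2 : ind A + ind B + ind D + ind E ≤ 3) :
    ind A + ind B + ind D + ind E = 2 * ind F ∨
      ind A + ind B + ind D + ind E = 2 * ind F + 1 := by
  have h3 : ind F = 1 := if_pos hF
  rw [h3]
  omega

/-- `{0, 1, 3}`, `v = 1` modulo `4`. -/
theorem E1_one {n u v : ℕ} (hn : n % 4 = 2) (huv : u * v ≡ 1 [MOD n]) (hv4 : v % 4 = 1)
    (hvn : v + 5 ≤ n) {d i : ℕ}
    (hd : d ≡ 2 ^ i * (1 + 2 ^ (u * 1) + 2 ^ (u * 3)) [MOD 2 ^ n - 1]) : ¬ V n d := by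
  refine kill1 (by omega) huv (by omega) (by omega) (by omega)
    (fun p => p = 0 ∨ (p % 4 = 2 ∧ p + 4 ≤ n)) (fun p => p = 3) ?_ ?_ hd
  · intro p hp
    have s1 := sb_cases (a := 1) hp (by omega)
    have s3 := sb_cases (a := 3) hp (by omega)
    have sv := sb_cases (a := v) hp (by omega)
    generalize sb n p 1 = x1 at s1 ⊢
    generalize sb n p 3 = x3 at s3 ⊢
    generalize sb n p v = xv at sv ⊢
    by_cases hC : p = 3
    · refine cond_yes hC ?_ ?_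
      · unfold ind
        split_ifs <;> omega
      · unfold ind
        split_ifs <;> omega
    · exact cond_no hC (by clear s3 sv; omega) (by clear s1 sv; omega) (by clear s1 s3; omega)
        (by clear sv; omega) (by clear s3; omega) (by clear s1; omega)
  · have h1 := cnt_ge (m := n) (k := (n + 2) / 4) (P := fun p => p = 0 ∨ (p % 4 = 2 ∧ p + 4 ≤ n))
      (fun i => if i = 0 then 0 else 4 * i - 2) (by
        intro i hi
        split_ifs <;> omega) (by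
        intro i hi j hj hij
        split_ifs at hij <;> omega)
    have h2 := cnt_le_one (m := n) 3
    omega

/-- `{0, 1, 3}`, `v = 3` modulo `4`. -/
theorem E1_three {n u v : ℕ} (hn : n % 4 = 2) (huv : u * v ≡ 1 [MOD n]) (hv4 : v % 4 = 3)
    (hv7 : 7 ≤ v) (hvn : v < n) {d i : ℕ}
    (hd : d ≡ 2 ^ i * (1 + 2 ^ (u * 1) + 2 ^ (u * 3)) [MOD 2 ^ n - 1]) : ¬ V n d := by
  refine kill1 (by omega) huv (by omega) (by omega) (by omega)
    (fun p => p = 0 ∨ p = 1 ∨ (p % 4 = 2 ∧ 6 ≤ p ∧ p + 4 ≤ n)) (fun p => p = 1) ?_ ?_ hd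
  · intro p hp
    have s1 := sb_cases (a := 1) hp (by omega)
    have s3 := sb_cases (a := 3) hp (by omega)
    have sv := sb_cases (a := v) hp (by omega)
    generalize sb n p 1 = x1 at s1 ⊢
    generalize sb n p 3 = x3 at s3 ⊢
    generalize sb n p v = xv at sv ⊢
    by_cases hC : p = 1
    · refine cond_yes hC ?_ ?_
      · unfold ind
        split_ifs <;> omega
      · unfold ind
        split_ifs <;> omega
    · exact cond_no hC (by clear s3 sv; omega) (by clear s1 sv; omega) (by clear s1 s3; omega)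
        (by clear sv; omega) (by clear s3; omega) (by clear s1; omega)
  · have h1 := cnt_ge (m := n) (k := (n + 2) / 4) (P := fun p => p = 0 ∨ p = 1 ∨ (p % 4 = 2 ∧ 6 ≤ p ∧ p + 4 ≤ n))
      (fun i => if i ≤ 1 then i else 4 * i - 2) (by
        intro i hi
        split_ifs <;> omega) (by
        intro i hi j hj hij
        split_ifs at hij <;> omega)
    have h2 := cnt_le_one (m := n) 1
    omega

/-- `{0, 1, 3}`, `v = 3`. -/
theorem E1_eq {n u : ℕ} (hn : n % 4 = 2) (huv : u * 3 ≡ 1 [MOD n]) (hn14 : 14 ≤ n) {d i : ℕ}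
    (hd : d ≡ 2 ^ i * (1 + 2 ^ (u * 1) + 2 ^ (u * 3)) [MOD 2 ^ n - 1]) : ¬ V n d := by
  refine kill1 (by omega) huv (by omega) (by omega) (by omega)
    (fun p => p = 0 ∨ p = 2 ∨ p = 3 ∨ p = 6 ∨ p = 8 ∨
      (p % 4 = 2 ∧ 14 ≤ p ∧ p + 4 ≤ n)) (fun p => p = 3 ∨ p = 6 ∨ p = 9) ?_ ?_ hd
  · intro p hp
    have s1 := sb_cases (a := 1) hp (by omega)
    have s3 := sb_cases (a := 3) hp (by omega)
    have sv := sb_cases (a := 3) hp (by omega)
    generalize sb n p 1 = x1 at s1 ⊢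
    generalize sb n p 3 = x3 at s3 sv ⊢
    by_cases hC : p = 3 ∨ p = 6 ∨ p = 9
    · refine cond_yes hC ?_ ?_
      · rcases hC with hC | hC | hC
        · have a1 : p = 0 ∨ p = 2 ∨ p = 3 ∨ p = 6 ∨ p = 8 ∨
          (p % 4 = 2 ∧ 14 ≤ p ∧ p + 4 ≤ n) := by omega
          have a2 : x1 = 0 ∨ x1 = 2 ∨ x1 = 3 ∨ x1 = 6 ∨ x1 = 8 ∨
          (x1 % 4 = 2 ∧ 14 ≤ x1 ∧ x1 + 4 ≤ n) := by omega
          rw [ind_of a1, ind_of a2]
          omega
        · have a1 : p = 0 ∨ p = 2 ∨ p = 3 ∨ p = 6 ∨ p = 8 ∨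
          (p % 4 = 2 ∧ 14 ≤ p ∧ p + 4 ≤ n) := by omega
          have a2 : x3 = 0 ∨ x3 = 2 ∨ x3 = 3 ∨ x3 = 6 ∨ x3 = 8 ∨
          (x3 % 4 = 2 ∧ 14 ≤ x3 ∧ x3 + 4 ≤ n) := by omega
          rw [ind_of a1, ind_of a2]
          omega
        · have a1 : x1 = 0 ∨ x1 = 2 ∨ x1 = 3 ∨ x1 = 6 ∨ x1 = 8 ∨
          (x1 % 4 = 2 ∧ 14 ≤ x1 ∧ x1 + 4 ≤ n) := by omega
          have a2 : x3 = 0 ∨ x3 = 2 ∨ x3 = 3 ∨ x3 = 6 ∨ x3 = 8 ∨
          (x3 % 4 = 2 ∧ 14 ≤ x3 ∧ x3 + 4 ≤ n) := by omega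
          rw [ind_of a1, ind_of a2]
          omega
      · rcases hC with hC | hC | hC <;> unfold ind <;> split_ifs <;> omega
    · exact cond_no hC (by clear s3 sv; omega) (by clear s1 sv; omega) (by clear s1 s3; omega)
        (by clear sv; omega) (by clear s3; omega) (by clear s1; omega)
  · have h1 := cnt_ge (m := n) (k := (n + 6) / 4) (P := fun p => p = 0 ∨ p = 2 ∨ p = 3 ∨ p = 6 ∨ p = 8 ∨
      (p % 4 = 2 ∧ 14 ≤ p ∧ p + 4 ≤ n))
      (fun i => if i = 0 then 0 else if i = 1 then 2 else if i = 2 then 3 else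
        if i = 3 then 6 else if i = 4 then 8 else 4 * i - 6) (by
        intro i hi
        split_ifs <;> omega) (by
        intro i hi j hj hij
        split_ifs at hij <;> omega)
    have h2 := cnt_le_three (m := n) 3 6 9
    omega

/-- `{0, 1, 1 + L}`, `v > L`. -/
theorem E2_hi {L u v : ℕ} (hL : 3 ≤ L) (hodd : L % 2 = 1) (huv : u * v ≡ 1 [MOD 2 * L])
    (hvo : v % 2 = 1) (hv1 : L < v) (hv2 : v + 3 ≤ 2 * L) {d i : ℕ}
    (hd : d ≡ 2 ^ i * (1 + 2 ^ (u * 1) + 2 ^ (u * (1 + L))) [MOD 2 ^ (2 * L) - 1]) : ¬ V (2 * L) d := by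
  refine kill1 (by omega) huv (by omega) (by omega) (by omega)
    (fun p => p = 0 ∨ (p % 2 = 1 ∧ p + 2 ≤ L)) (fun p => p = 1) ?_ ?_ hd
  · intro p hp
    have s1 := sb_cases (a := 1) hp (by omega)
    have s3 := sb_cases (a := 1 + L) hp (by omega)
    have sv := sb_cases (a := v) hp (by omega)
    generalize sb (2 * L) p 1 = x1 at s1 ⊢
    generalize sb (2 * L) p (1 + L) = x3 at s3 ⊢
    generalize sb (2 * L) p v = xv at sv ⊢
    by_cases hC : p = 1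
    · refine cond_yes hC ?_ ?_
      · unfold ind
        split_ifs <;> omega
      · unfold ind
        split_ifs <;> omega
    · exact cond_no hC (by clear s3 sv; omega) (by clear s1 sv; omega) (by clear s1 s3; omega)
        (by clear sv; omega) (by clear s3; omega) (by clear s1; omega)
  · have h1 := cnt_ge (m := 2 * L) (k := (L + 1) / 2) (P := fun p => p = 0 ∨ (p % 2 = 1 ∧ p + 2 ≤ L))
      (fun i => if i = 0 then 0 else 2 * i - 1) (by
        intro i hi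
        split_ifs <;> omega) (by
        intro i hi j hj hij
        split_ifs at hij <;> omega)
    have h2 := cnt_le_one (m := 2 * L) 1
    omega

/-- `{0, 1, 1 + L}`, `v = 2 L - 1`. -/
theorem E2_top {L u v : ℕ} (hL : 3 ≤ L) (hodd : L % 2 = 1) (huv : u * v ≡ 1 [MOD 2 * L])
    (hv1 : v + 1 = 2 * L) {d i : ℕ}
    (hd : d ≡ 2 ^ i * (1 + 2 ^ (u * 1) + 2 ^ (u * (1 + L))) [MOD 2 ^ (2 * L) - 1]) : ¬ V (2 * L) d := by
  refine kill1 (by omega) huv (by omega) (by omega) (by omega)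
    (fun p => p = 0 ∨ p = 1 + L ∨ (p % 2 = 1 ∧ 3 ≤ p ∧ p + 2 ≤ L)) (fun p => p = 1 + L) ?_ ?_ hd
  · intro p hp
    have s1 := sb_cases (a := 1) hp (by omega)
    have s3 := sb_cases (a := 1 + L) hp (by omega)
    have sv := sb_cases (a := v) hp (by omega)
    generalize sb (2 * L) p 1 = x1 at s1 ⊢
    generalize sb (2 * L) p (1 + L) = x3 at s3 ⊢
    generalize sb (2 * L) p v = xv at sv ⊢
    by_cases hC : p = 1 + L
    · refine cond_yes hC ?_ ?_
      · unfold ind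
        split_ifs <;> omega
      · unfold ind
        split_ifs <;> omega
    · exact cond_no hC (by clear s3 sv; omega) (by clear s1 sv; omega) (by clear s1 s3; omega)
        (by clear sv; omega) (by clear s3; omega) (by clear s1; omega)
  · have h1 := cnt_ge (m := 2 * L) (k := (L + 1) / 2) (P := fun p => p = 0 ∨ p = 1 + L ∨ (p % 2 = 1 ∧ 3 ≤ p ∧ p + 2 ≤ L))
      (fun i => if i = 0 then 0 else if i = 1 then 1 + L else 2 * i - 1) (by
        intro i hi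
        split_ifs <;> omega) (by
        intro i hi j hj hij
        split_ifs at hij <;> omega)
    have h2 := cnt_le_one (m := 2 * L) (1 + L)
    omega

/-- `{0, 1, 1 + L}`, `v < L`. -/
theorem E2_lo {L u v : ℕ} (hodd : L % 2 = 1) (huv : u * v ≡ 1 [MOD 2 * L])
    (hvo : v % 2 = 1) (hv1 : 3 ≤ v) (hv2 : v + 4 ≤ L) {d i : ℕ}
    (hd : d ≡ 2 ^ i * (1 + 2 ^ (u * 1) + 2 ^ (u * (1 + L))) [MOD 2 ^ (2 * L) - 1]) : ¬ V (2 * L) d := by
  refine kill1 (by omega) huv (by omega) (by omega) (by omega)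
    (fun p => p = 0 ∨ p = 1 + L ∨ (p % 2 = 1 ∧ 3 ≤ p ∧ p + 2 ≤ v) ∨
      (p % 2 = 0 ∧ v + 1 ≤ p ∧ p + 3 ≤ L) ∨ p + 1 = L ∨ p + 1 = 2 * L) (fun p => p = 0 ∨ p = L ∨ p = 1 + L) ?_ ?_ hd
  · intro p hp
    have s1 := sb_cases (a := 1) hp (by omega)
    have s3 := sb_cases (a := 1 + L) hp (by omega)
    have sv := sb_cases (a := v) hp (by omega)
    generalize sb (2 * L) p 1 = x1 at s1 ⊢
    generalize sb (2 * L) p (1 + L) = x3 at s3 ⊢
    generalize sb (2 * L) p v = xv at sv ⊢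
    by_cases hC : p = 0 ∨ p = L ∨ p = 1 + L
    · refine cond_yes hC ?_ ?_
      · rcases hC with hC | hC | hC
        · have a1 : p = 0 ∨ p = 1 + L ∨ (p % 2 = 1 ∧ 3 ≤ p ∧ p + 2 ≤ v) ∨
          (p % 2 = 0 ∧ v + 1 ≤ p ∧ p + 3 ≤ L) ∨ p + 1 = L ∨ p + 1 = 2 * L := by omega
          have a2 : x1 = 0 ∨ x1 = 1 + L ∨ (x1 % 2 = 1 ∧ 3 ≤ x1 ∧ x1 + 2 ≤ v) ∨
          (x1 % 2 = 0 ∧ v + 1 ≤ x1 ∧ x1 + 3 ≤ L) ∨ x1 + 1 = L ∨ x1 + 1 = 2 * L := by omega
          rw [ind_of a1, ind_of a2]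
          omega
        · have a1 : x1 = 0 ∨ x1 = 1 + L ∨ (x1 % 2 = 1 ∧ 3 ≤ x1 ∧ x1 + 2 ≤ v) ∨
          (x1 % 2 = 0 ∧ v + 1 ≤ x1 ∧ x1 + 3 ≤ L) ∨ x1 + 1 = L ∨ x1 + 1 = 2 * L := by omega
          have a2 : x3 = 0 ∨ x3 = 1 + L ∨ (x3 % 2 = 1 ∧ 3 ≤ x3 ∧ x3 + 2 ≤ v) ∨
          (x3 % 2 = 0 ∧ v + 1 ≤ x3 ∧ x3 + 3 ≤ L) ∨ x3 + 1 = L ∨ x3 + 1 = 2 * L := by omega
          rw [ind_of a1, ind_of a2]
          omega
        · have a1 : p = 0 ∨ p = 1 + L ∨ (p % 2 = 1 ∧ 3 ≤ p ∧ p + 2 ≤ v) ∨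
          (p % 2 = 0 ∧ v + 1 ≤ p ∧ p + 3 ≤ L) ∨ p + 1 = L ∨ p + 1 = 2 * L := by omega
          have a2 : x3 = 0 ∨ x3 = 1 + L ∨ (x3 % 2 = 1 ∧ 3 ≤ x3 ∧ x3 + 2 ≤ v) ∨
          (x3 % 2 = 0 ∧ v + 1 ≤ x3 ∧ x3 + 3 ≤ L) ∨ x3 + 1 = L ∨ x3 + 1 = 2 * L := by omega
          rw [ind_of a1, ind_of a2]
          omega
      · rcases hC with hC | hC | hC <;> unfold ind <;> split_ifs <;> omega
    · exact cond_no hC (by clear s3 sv; omega) (by clear s1 sv; omega) (by clear s1 s3; omega)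
        (by clear sv; omega) (by clear s3; omega) (by clear s1; omega)
  · have h1 := cnt_ge (m := 2 * L) (k := (L + 3) / 2) (P := fun p => p = 0 ∨ p = 1 + L ∨ (p % 2 = 1 ∧ 3 ≤ p ∧ p + 2 ≤ v) ∨
      (p % 2 = 0 ∧ v + 1 ≤ p ∧ p + 3 ≤ L) ∨ p + 1 = L ∨ p + 1 = 2 * L)
      (fun i => if i = 0 then 0 else if i = 1 then 1 + L else if i = 2 then L - 1 else
        if i = 3 then 2 * L - 1 else if 2 * i ≤ v + 3 then 2 * i - 5 else 2 * i - 4) (by
        intro i hi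
        split_ifs <;> omega) (by
        intro i hi j hj hij
        split_ifs at hij <;> omega)
    have h2 := cnt_le_three (m := 2 * L) 0 L (1 + L)
    omega

end Pool.Agent.CE
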