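import Pool.Agent.Lib_helper89.CE.K3

/-!
# Cubic exponents (MP_85e36e_co): additions with carries, an odd number of rows
-/

set_option autoImplicit false

namespace Pool.Agent.CE

open Pool.Agent.TV

theorem cond3_no {A B D F : Prop} [Decidable A] [Decidable B] [Decidable D]
    [Decidable F] (hF : ¬ F) (h1 : ¬ (A ∧ B)) (h2 : ¬ (A ∧ D)) (h4 : ¬ (B ∧ D)) :
    ind A + ind B + ind D = 2 * ind F ∨ ind A + ind B + ind D = 2 * ind F + 1 := by
  have h := ind_excl h1 h2 h4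
  have h3 : ind F = 0 := if_neg hF
  omega

theorem cond3_yes {A B D F : Prop} [Decidable A] [Decidable B] [Decidable D]
    [Decidable F] (hF : F) (h1 : 2 ≤ ind A + ind B + ind D) :
    ind A + ind B + ind D = 2 * ind F ∨ ind A + ind B + ind D = 2 * ind F + 1 := by
  have h3 : ind F = 1 := if_pos hF
  have h4 : ind A ≤ 1 := by unfold ind; split_ifs <;> omega
  have h5 : ind B ≤ 1 := by unfold ind; split_ifs <;> omega
  have h6 : ind D ≤ 1 := by unfold ind; split_ifs <;> omega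
  omega

theorem cond4_le {A B D E : Prop} [Decidable A] [Decidable B] [Decidable D] [Decidable E]
    (h1 : ¬ (A ∧ B)) (h2 : ¬ (A ∧ D)) (h3 : ¬ (A ∧ E))
    (h4 : ¬ (B ∧ D)) (h5 : ¬ (B ∧ E)) (h6 : ¬ (D ∧ E)) :
    ind A + ind B + ind D + ind E ≤ 1 := by
  unfold ind
  by_cases hA : A <;> by_cases hB : B <;> by_cases hD : D <;> by_cases hE : E <;>
    simp [hA, hB, hD, hE] <;> tauto

/-- `{0, 1, 3}`, several rows. -/
theorem E1_T {m u v h : ℕ} (hh : 0 < h) (hm : m % 4 = 2) (hm10 : 10 ≤ m) (huv : u * v ≡ 1 [MOD m])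
    (hv : v < m) {d i : ℕ}
    (hd : d ≡ 2 ^ i * (1 + 2 ^ ((2 * h + 1) * u * 1) + 2 ^ ((2 * h + 1) * u * 3))
      [MOD 2 ^ ((2 * h + 1) * m) - 1]) : ¬ V ((2 * h + 1) * m) d := by
  refine killT hh (by omega) huv (by omega) (by omega) hv
    (fun p => p = 0 ∨ (p % 4 = 2 ∧ p + 4 ≤ m)) (fun p => p = 2 ∨ p = 3 ∨ p = 7 ∨ p = 8 ∨ (p % 4 = 0 ∧ 12 ≤ p))
    (fun p => p = 1 ∨ (p % 4 = 2 ∧ 6 ≤ p ∧ p + 4 ≤ m)) (fun p => p = 3) (fun p => p = 3 ∨ p = 8) ?_ ?_ ?_ ?_ ?_ ?_ hd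
  · intro p hp
    have s1 := sb_cases (a := 1) hp (by omega)
    have s3 := sb_cases (a := 3) hp (by omega)
    generalize sb m p 1 = x1 at s1 ⊢
    generalize sb m p 3 = x3 at s3 ⊢
    by_cases hC : p = 3
    · refine cond3_yes hC ?_
      · have a1 : x1 = 0 ∨ (x1 % 4 = 2 ∧ x1 + 4 ≤ m) := by omega
        have a2 : x3 = 0 ∨ (x3 % 4 = 2 ∧ x3 + 4 ≤ m) := by omega
        rw [ind_of a1, ind_of a2]
        omega
    · exact cond3_no hC (by clear s3; omega) (by clear s1; omega) (by omega)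
  · intro p hp
    have s1 := sb_cases (a := 1) hp (by omega)
    have s3 := sb_cases (a := 3) hp (by omega)
    generalize sb m p 1 = x1 at s1 ⊢
    generalize sb m p 3 = x3 at s3 ⊢
    by_cases hC : p = 3 ∨ p = 8
    · refine cond3_yes hC ?_
      · rcases hC with hC | hC
        · have a1 : p = 2 ∨ p = 3 ∨ p = 7 ∨ p = 8 ∨ (p % 4 = 0 ∧ 12 ≤ p) := by omega
          have a2 : x1 = 2 ∨ x1 = 3 ∨ x1 = 7 ∨ x1 = 8 ∨ (x1 % 4 = 0 ∧ 12 ≤ x1) := by omega
          rw [ind_of a1, ind_of a2]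
          omega
        · have a1 : p = 2 ∨ p = 3 ∨ p = 7 ∨ p = 8 ∨ (p % 4 = 0 ∧ 12 ≤ p) := by omega
          have a2 : x1 = 2 ∨ x1 = 3 ∨ x1 = 7 ∨ x1 = 8 ∨ (x1 % 4 = 0 ∧ 12 ≤ x1) := by omega
          rw [ind_of a1, ind_of a2]
          omega
    · exact cond3_no hC (by clear s3; omega) (by clear s1; omega) (by omega)
  · intro p hp
    have s1 := sb_cases (a := 1) hp (by omega)
    have s3 := sb_cases (a := 3) hp (by omega)
    generalize sb m p 1 = x1 at s1 ⊢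
    generalize sb m p 3 = x3 at s3 ⊢
    by_cases hC : p = 3 ∨ p = 8
    · refine cond_yes hC ?_ ?_
      · rcases hC with hC | hC
        · have a1 : p = 2 ∨ p = 3 ∨ p = 7 ∨ p = 8 ∨ (p % 4 = 0 ∧ 12 ≤ p) := by omega
          have a2 : x1 = 2 ∨ x1 = 3 ∨ x1 = 7 ∨ x1 = 8 ∨ (x1 % 4 = 0 ∧ 12 ≤ x1) := by omega
          rw [ind_of a1, ind_of a2]
          omega
        · have a1 : p = 2 ∨ p = 3 ∨ p = 7 ∨ p = 8 ∨ (p % 4 = 0 ∧ 12 ≤ p) := by omega
          have a2 : x1 = 2 ∨ x1 = 3 ∨ x1 = 7 ∨ x1 = 8 ∨ (x1 % 4 = 0 ∧ 12 ≤ x1) := by omega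
          rw [ind_of a1, ind_of a2]
          omega
      · rcases hC with hC | hC <;> unfold ind <;> split_ifs <;> omega
    · exact cond_no hC (by clear s3; omega) (by clear s1; omega) (by clear s1 s3; omega)
        (by omega) (by clear s3; omega) (by clear s1; omega)
  · intro p hp
    have s1 := sb_cases (a := 1) hp (by omega)
    have s3 := sb_cases (a := 3) hp (by omega)
    generalize sb m p 1 = x1 at s1 ⊢
    generalize sb m p 3 = x3 at s3 ⊢
    refine cond4_le ?_ ?_ ?_ ?_ ?_ ?_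
    · clear s3; omega
    · clear s1; omega
    · clear s1 s3; omega
    · omega
    · clear s3; omega
    · clear s1; omega
  · -- the counts
    have h1 := cnt_ge (m := m) (k := (m + 2) / 4) (P := fun p => p = 0 ∨ (p % 4 = 2 ∧ p + 4 ≤ m))
      (fun i => if i = 0 then 0 else 4 * i - 2) (by
        intro i hi
        split_ifs <;> omega) (by
        intro i hi j hj hij
        split_ifs at hij <;> omega)
    have h2 := cnt_le_one (m := m) 3
    omega
  · -- the counts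
    have h1 := cnt_ge (m := m) (k := (m + 6) / 4) (P := fun p => p = 2 ∨ p = 3 ∨ p = 7 ∨ p = 8 ∨ (p % 4 = 0 ∧ 12 ≤ p))
      (fun i => if i = 0 then 2 else if i = 1 then 3 else if i = 2 then 7 else if i = 3 then 8 else 4 * i - 4) (by
        intro i hi
        split_ifs <;> omega) (by
        intro i hi j hj hij
        split_ifs at hij <;> omega)
    have h3 := cnt_ge (m := m) (k := (m - 2) / 4) (P := fun p => p = 1 ∨ (p % 4 = 2 ∧ 6 ≤ p ∧ p + 4 ≤ m))
      (fun i => if i = 0 then 1 else 4 * i + 2) (by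
        intro i hi
        split_ifs <;> omega) (by
        intro i hi j hj hij
        split_ifs at hij <;> omega)
    have h2 := cnt_le_two (m := m) 3 8
    omega

/-- `{0, 1, 1 + L}`, several rows. -/
theorem E2_T {L u v h : ℕ} (hh : 0 < h) (hL : 3 ≤ L) (hodd : L % 2 = 1)
    (huv : u * v ≡ 1 [MOD 2 * L]) (hv : v < 2 * L) {d i : ℕ}
    (hd : d ≡ 2 ^ i * (1 + 2 ^ ((2 * h + 1) * u * 1) + 2 ^ ((2 * h + 1) * u * (1 + L)))
      [MOD 2 ^ ((2 * h + 1) * (2 * L)) - 1]) : ¬ V ((2 * h + 1) * (2 * L)) d := by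
  refine killT hh (by omega) huv (by omega) (by omega) hv
    (fun p => p = 0 ∨ (p % 2 = 1 ∧ p + 2 ≤ L)) (fun p => p = 0 ∨ p = L ∨ p = 1 + L ∨ (p % 2 = 1 ∧ 3 ≤ p ∧ p + 2 ≤ L))
    (fun p => p % 2 = 0 ∧ 2 ≤ p ∧ p + 1 ≤ L) (fun p => p = 1) (fun p => p = 1 ∨ p = 1 + L) ?_ ?_ ?_ ?_ ?_ ?_ hd
  · intro p hp
    have s1 := sb_cases (a := 1) hp (by omega)
    have s3 := sb_cases (a := 1 + L) hp (by omega)
    generalize sb (2 * L) p 1 = x1 at s1 ⊢
    generalize sb (2 * L) p (1 + L) = x3 at s3 ⊢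
    by_cases hC : p = 1
    · refine cond3_yes hC ?_
      · have a1 : p = 0 ∨ (p % 2 = 1 ∧ p + 2 ≤ L) := by omega
        have a2 : x1 = 0 ∨ (x1 % 2 = 1 ∧ x1 + 2 ≤ L) := by omega
        rw [ind_of a1, ind_of a2]
        omega
    · exact cond3_no hC (by clear s3; omega) (by clear s1; omega) (by omega)
  · intro p hp
    have s1 := sb_cases (a := 1) hp (by omega)
    have s3 := sb_cases (a := 1 + L) hp (by omega)
    generalize sb (2 * L) p 1 = x1 at s1 ⊢
    generalize sb (2 * L) p (1 + L) = x3 at s3 ⊢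
    by_cases hC : p = 1 ∨ p = 1 + L
    · refine cond3_yes hC ?_
      · rcases hC with hC | hC
        · have a1 : x1 = 0 ∨ x1 = L ∨ x1 = 1 + L ∨ (x1 % 2 = 1 ∧ 3 ≤ x1 ∧ x1 + 2 ≤ L) := by omega
          have a2 : x3 = 0 ∨ x3 = L ∨ x3 = 1 + L ∨ (x3 % 2 = 1 ∧ 3 ≤ x3 ∧ x3 + 2 ≤ L) := by omega
          rw [ind_of a1, ind_of a2]
          omega
        · have a1 : p = 0 ∨ p = L ∨ p = 1 + L ∨ (p % 2 = 1 ∧ 3 ≤ p ∧ p + 2 ≤ L) := by omega
          have a2 : x1 = 0 ∨ x1 = L ∨ x1 = 1 + L ∨ (x1 % 2 = 1 ∧ 3 ≤ x1 ∧ x1 + 2 ≤ L) := by omega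
          rw [ind_of a1, ind_of a2]
          omega
    · exact cond3_no hC (by clear s3; omega) (by clear s1; omega) (by omega)
  · intro p hp
    have s1 := sb_cases (a := 1) hp (by omega)
    have s3 := sb_cases (a := 1 + L) hp (by omega)
    generalize sb (2 * L) p 1 = x1 at s1 ⊢
    generalize sb (2 * L) p (1 + L) = x3 at s3 ⊢
    by_cases hC : p = 1 ∨ p = 1 + L
    · refine cond_yes hC ?_ ?_
      · rcases hC with hC | hC
        · have a1 : x1 = 0 ∨ x1 = L ∨ x1 = 1 + L ∨ (x1 % 2 = 1 ∧ 3 ≤ x1 ∧ x1 + 2 ≤ L) := by omega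
          have a2 : x3 = 0 ∨ x3 = L ∨ x3 = 1 + L ∨ (x3 % 2 = 1 ∧ 3 ≤ x3 ∧ x3 + 2 ≤ L) := by omega
          rw [ind_of a1, ind_of a2]
          omega
        · have a1 : p = 0 ∨ p = L ∨ p = 1 + L ∨ (p % 2 = 1 ∧ 3 ≤ p ∧ p + 2 ≤ L) := by omega
          have a2 : x1 = 0 ∨ x1 = L ∨ x1 = 1 + L ∨ (x1 % 2 = 1 ∧ 3 ≤ x1 ∧ x1 + 2 ≤ L) := by omega
          rw [ind_of a1, ind_of a2]
          omega
      · rcases hC with hC | hC <;> unfold ind <;> split_ifs <;> omega
    · exact cond_no hC (by clear s3; omega) (by clear s1; omega) (by clear s1 s3; omega)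
        (by omega) (by clear s3; omega) (by clear s1; omega)
  · intro p hp
    have s1 := sb_cases (a := 1) hp (by omega)
    have s3 := sb_cases (a := 1 + L) hp (by omega)
    generalize sb (2 * L) p 1 = x1 at s1 ⊢
    generalize sb (2 * L) p (1 + L) = x3 at s3 ⊢
    refine cond4_le ?_ ?_ ?_ ?_ ?_ ?_
    · clear s3; omega
    · clear s1; omega
    · clear s1 s3; omega
    · omega
    · clear s3; omega
    · clear s1; omega
  · -- the counts
    have h1 := cnt_ge (m := 2 * L) (k := (L + 1) / 2) (P := fun p => p = 0 ∨ (p % 2 = 1 ∧ p + 2 ≤ L))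
      (fun i => if i = 0 then 0 else 2 * i - 1) (by
        intro i hi
        split_ifs <;> omega) (by
        intro i hi j hj hij
        split_ifs at hij <;> omega)
    have h2 := cnt_le_one (m := 2 * L) 1
    omega
  · -- the counts
    have h1 := cnt_ge (m := 2 * L) (k := (L + 3) / 2) (P := fun p => p = 0 ∨ p = L ∨ p = 1 + L ∨ (p % 2 = 1 ∧ 3 ≤ p ∧ p + 2 ≤ L))
      (fun i => if i = 0 then 0 else if i = 1 then L else if i = 2 then 1 + L else 2 * i - 3) (by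
        intro i hi
        split_ifs <;> omega) (by
        intro i hi j hj hij
        split_ifs at hij <;> omega)
    have h3 := cnt_ge (m := 2 * L) (k := (L - 1) / 2) (P := fun p => p % 2 = 0 ∧ 2 ≤ p ∧ p + 1 ≤ L)
      (fun i => if i = 0 then 2 else 2 * i + 2) (by
        intro i hi
        split_ifs <;> omega) (by
        intro i hi j hj hij
        split_ifs at hij <;> omega)
    have h2 := cnt_le_two (m := 2 * L) 1 (1 + L)
    omega

end Pool.Agent.CE
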