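import Pool.Agent.Lib_helper89.CE.K4

/-!
# Cubic exponents (MP_85e36e_co): the exceptional case `{0, 2, 5}` modulo `18` and `26`
-/

set_option autoImplicit false

namespace Pool.Agent.CE

open Pool.Agent.TV

/-- `{0, 2, 5}` modulo `18`. -/
theorem E3_18 {u v : ℕ} (huv : u * v ≡ 1 [MOD 18]) (hv : v < 18) {d i : ℕ}
    (hd : d ≡ 2 ^ i * (1 + 2 ^ (u * 2) + 2 ^ (u * 5)) [MOD 2 ^ 18 - 1]) : ¬ V 18 d := by
  have hcop : Nat.gcd v 18 = 1 := by
    have h1 : Nat.gcd (u * v) 18 = 1 := by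
      rw [huv.gcd_eq]
      exact Nat.gcd_one_left _
    exact Nat.Coprime.coprime_mul_left h1
  have key : ∀ (J C : Finset ℕ), (∀ p < 18, ind (p ∈ J) + ind (sb 18 p 2 ∈ J) +
      ind (sb 18 p 5 ∈ J) + ind (sb 18 p v ∈ C) = 2 * ind (p ∈ C) ∨
      ind (p ∈ J) + ind (sb 18 p 2 ∈ J) + ind (sb 18 p 5 ∈ J) + ind (sb 18 p v ∈ C) =
        2 * ind (p ∈ C) + 1) →
      18 + 2 * cnt 18 (fun p => p ∈ C) ≤ 4 * cnt 18 (fun p => p ∈ J) → ¬ V 18 d := by
    intro J C h1 h2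
    exact kill1 (by norm_num) huv (by norm_num) (by norm_num) hv (fun p => p ∈ J)
      (fun p => p ∈ C) h1 h2 hd
  interval_cases v
  · exact absurd hcop (by decide)
  · exact key ({0, 1, 4, 6, 10} : Finset ℕ) ({6} : Finset ℕ) (by decide) (by decide)
  · exact absurd hcop (by decide)
  · exact absurd hcop (by decide)
  · exact absurd hcop (by decide)
  · exact key ({0, 1, 4, 8, 12} : Finset ℕ) ({6} : Finset ℕ) (by decide) (by decide)
  · exact absurd hcop (by decide)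
  · exact key ({0, 1, 2, 8, 12} : Finset ℕ) ({2} : Finset ℕ) (by decide) (by decide)
  · exact absurd hcop (by decide)
  · exact absurd hcop (by decide)
  · exact absurd hcop (by decide)
  · exact key ({0, 1, 2, 9, 10} : Finset ℕ) ({2} : Finset ℕ) (by decide) (by decide)
  · exact absurd hcop (by decide)
  · exact key ({0, 1, 2, 8, 9} : Finset ℕ) ({2} : Finset ℕ) (by decide) (by decide)
  · exact absurd hcop (by decide)
  · exact absurd hcop (by decide)
  · exact absurd hcop (by decide)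
  · exact key ({0, 1, 5, 11, 12} : Finset ℕ) ({5} : Finset ℕ) (by decide) (by decide)

/-- `{0, 2, 5}` modulo `26`. -/
theorem E3_26 {u v : ℕ} (huv : u * v ≡ 1 [MOD 26]) (hv : v < 26) {d i : ℕ}
    (hd : d ≡ 2 ^ i * (1 + 2 ^ (u * 2) + 2 ^ (u * 5)) [MOD 2 ^ 26 - 1]) : ¬ V 26 d := by
  have hcop : Nat.gcd v 26 = 1 := by
    have h1 : Nat.gcd (u * v) 26 = 1 := by
      rw [huv.gcd_eq]
      exact Nat.gcd_one_left _
    exact Nat.Coprime.coprime_mul_left h1
  have key : ∀ (J C : Finset ℕ), (∀ p < 26, ind (p ∈ J) + ind (sb 26 p 2 ∈ J) +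
      ind (sb 26 p 5 ∈ J) + ind (sb 26 p v ∈ C) = 2 * ind (p ∈ C) ∨
      ind (p ∈ J) + ind (sb 26 p 2 ∈ J) + ind (sb 26 p 5 ∈ J) + ind (sb 26 p v ∈ C) =
        2 * ind (p ∈ C) + 1) →
      26 + 2 * cnt 26 (fun p => p ∈ C) ≤ 4 * cnt 26 (fun p => p ∈ J) → ¬ V 26 d := by
    intro J C h1 h2
    exact kill1 (by norm_num) huv (by norm_num) (by norm_num) hv (fun p => p ∈ J)
      (fun p => p ∈ C) h1 h2 hd
  interval_cases v
  · exact absurd hcop (by decide)
  · exact key ({0, 1, 4, 6, 10, 14, 18} : Finset ℕ) ({6} : Finset ℕ) (by decide) (by decide)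
  · exact absurd hcop (by decide)
  · exact key ({0, 1, 5, 9, 13, 19, 20} : Finset ℕ) ({5} : Finset ℕ) (by decide) (by decide)
  · exact absurd hcop (by decide)
  · exact key ({0, 1, 4, 8, 12, 16, 20} : Finset ℕ) ({6} : Finset ℕ) (by decide) (by decide)
  · exact absurd hcop (by decide)
  · exact key ({0, 1, 2, 8, 12, 16, 20} : Finset ℕ) ({2} : Finset ℕ) (by decide) (by decide)
  · exact absurd hcop (by decide)
  · exact key ({0, 1, 2, 8, 12, 16, 20} : Finset ℕ) ({2} : Finset ℕ) (by decide) (by decide)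
  · exact absurd hcop (by decide)
  · exact key ({0, 1, 2, 9, 10, 16, 17} : Finset ℕ) ({2} : Finset ℕ) (by decide) (by decide)
  · exact absurd hcop (by decide)
  · exact absurd hcop (by decide)
  · exact absurd hcop (by decide)
  · exact key ({0, 1, 2, 8, 9, 16, 20} : Finset ℕ) ({2} : Finset ℕ) (by decide) (by decide)
  · exact absurd hcop (by decide)
  · exact key ({0, 1, 2, 8, 9, 15, 16} : Finset ℕ) ({2} : Finset ℕ) (by decide) (by decide)
  · exact absurd hcop (by decide)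
  · exact key ({0, 1, 2, 8, 9, 15, 23} : Finset ℕ) ({2} : Finset ℕ) (by decide) (by decide)
  · exact absurd hcop (by decide)
  · exact key ({0, 1, 2, 8, 9, 15, 16} : Finset ℕ) ({2} : Finset ℕ) (by decide) (by decide)
  · exact absurd hcop (by decide)
  · exact key ({0, 1, 2, 8, 9, 15, 16} : Finset ℕ) ({2} : Finset ℕ) (by decide) (by decide)
  · exact absurd hcop (by decide)
  · exact key ({0, 1, 5, 9, 13, 19, 20} : Finset ℕ) ({5} : Finset ℕ) (by decide) (by decide)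

/-- `{0, 2, 5}` modulo `18`, several rows. -/
theorem E3_T18 {u v h : ℕ} (hh : 0 < h) (huv : u * v ≡ 1 [MOD 18]) (hv : v < 18) {d i : ℕ}
    (hd : d ≡ 2 ^ i * (1 + 2 ^ ((2 * h + 1) * u * 2) + 2 ^ ((2 * h + 1) * u * 5))
      [MOD 2 ^ ((2 * h + 1) * 18) - 1]) : ¬ V ((2 * h + 1) * 18) d :=
  killT hh (by norm_num) huv (by norm_num) (by norm_num) hv
    (fun p => p ∈ ({5, 6, 7, 13, 14} : Finset ℕ)) (fun p => p ∈ ({0, 1, 2, 7, 8, 15} : Finset ℕ)) (fun p => p ∈ ({3, 4, 10, 11} : Finset ℕ)) (fun p => p ∈ ({7} : Finset ℕ)) (fun p => p ∈ ({2, 7} : Finset ℕ))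
    (by decide) (by decide) (by decide) (by decide) (by decide) (by decide) hd

/-- `{0, 2, 5}` modulo `26`, several rows. -/
theorem E3_T26 {u v h : ℕ} (hh : 0 < h) (huv : u * v ≡ 1 [MOD 26]) (hv : v < 26) {d i : ℕ}
    (hd : d ≡ 2 ^ i * (1 + 2 ^ ((2 * h + 1) * u * 2) + 2 ^ ((2 * h + 1) * u * 5))
      [MOD 2 ^ ((2 * h + 1) * 26) - 1]) : ¬ V ((2 * h + 1) * 26) d :=
  killT hh (by norm_num) huv (by norm_num) (by norm_num) hv
    (fun p => p ∈ ({4, 5, 6, 12, 13, 19, 20} : Finset ℕ)) (fun p => p ∈ ({0, 1, 2, 6, 10, 16, 17, 23} : Finset ℕ)) (fun p => p ∈ ({3, 7, 11, 15, 19, 25} : Finset ℕ)) (fun p => p ∈ ({6} : Finset ℕ)) (fun p => p ∈ ({2, 6} : Finset ℕ))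
    (by decide) (by decide) (by decide) (by decide) (by decide) (by decide) hd

end Pool.Agent.CE
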