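import Pool.Agent.Lib_helper89.CE.K2

/-!
# Cubic exponents (MP_85e36e_co): sets without collisions on a grid

`n = N L`, `e = N e'`, `(e', L) = 1`, `(o, N) = 1`, `N` even: the positions `x o + (y - [x/2]) e`,
`x < N`, `y` modulo `L`.
-/

set_option autoImplicit false

namespace Pool.Agent.CE

open Pool.Agent.TV

theorem ind_iff {P Q : Prop} [Decidable P] [Decidable Q] (h : P ↔ Q) : ind P = ind Q := by
  unfold ind
  by_cases hP : P
  · rw [if_pos hP, if_pos (h.mp hP)]
  · rw [if_neg hP, if_neg (fun hQ => hP (h.mpr hQ))]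

theorem sb_cast {m p a : ℕ} (ha : a < m) :
    ((sb m p a : ℕ) : ZMod m) = (p : ZMod m) - a := by
  unfold sb
  split_ifs with h
  · rw [Nat.cast_sub h]
  · rw [Nat.cast_sub (by omega), Nat.cast_add, ZMod.natCast_self, add_zero]

/-- transport of a set without collisions -/
theorem CF_of {n : ℕ} (hn : 0 < n) {X : Type} [Fintype X] [DecidableEq X] (pos : X → ZMod n)
    (hpos : Function.Bijective pos) (J : X → Prop) [DecidablePred J] (fa fb : X → X) (a b : ℕ)
    (han : a < n) (hbn : b < n)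
    (ha : ∀ x, pos (fa x) + a = pos x) (hb : ∀ x, pos (fb x) + b = pos x)
    (h : ∀ x, ind (J x) + ind (J (fa x)) + ind (J (fb x)) ≤ 1)
    (hcount : n ≤ 4 * (Finset.univ.filter J).card) : CF n a b := by
  have : NeZero n := ⟨hn.ne'⟩
  classical
  obtain ⟨q, hq1, hq2⟩ := Function.bijective_iff_has_inverse.mp hpos
  refine ⟨fun p => J (q (p : ZMod n)), fun p => by dsimp only; infer_instance, ?_, ?_⟩
  · intro p hp
    have key : ∀ (f : X → X) (c : ℕ), c < n → (∀ x, pos (f x) + c = pos x) →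
        q ((sb n p c : ℕ) : ZMod n) = f (q (p : ZMod n)) := by
      intro f c hc hf
      have h2 : (p : ZMod n) - c = pos (f (q (p : ZMod n))) := by
        rw [sub_eq_iff_eq_add, hf, hq2]
      rw [sb_cast hc, h2, hq1]
    refine le_trans (le_of_eq (congrArg₂ (· + ·) (congrArg₂ (· + ·) (ind_iff Iff.rfl)
      (ind_iff ?_)) (ind_iff ?_))) (h (q (p : ZMod n)))
    · dsimp only
      rw [key fa a han ha]
    · dsimp only
      rw [key fb b hbn hb]
  · have h1 : cnt n (fun p => J (q (p : ZMod n))) = (Finset.univ.filter J).card := by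
      have h2 := card_zmod (m := n) (fun p => J (q (p : ZMod n)))
      rw [← h2]
      refine Finset.card_bij (fun z _ => q z) ?_ ?_ ?_
      · intro z hz
        have h3 := (Finset.mem_filter.mp hz).2
        rw [ZMod.natCast_zmod_val] at h3
        exact Finset.mem_filter.mpr ⟨Finset.mem_univ _, h3⟩
      · intro z _ z' _ hzz
        have := congrArg pos hzz
        rwa [hq2, hq2] at this
      · intro x hx
        refine ⟨pos x, ?_, hq1 x⟩
        refine Finset.mem_filter.mpr ⟨Finset.mem_univ _, ?_⟩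
        rw [ZMod.natCast_zmod_val, hq1]
        exact (Finset.mem_filter.mp hx).2
    rw [h1]
    exact hcount

theorem grid_inj {N L e o : ℕ} (hN : 0 < N) (he : Nat.Coprime e L)
    (ho : Nat.Coprime o N) {X Y : ℤ} (hX : |X| < N)
    (h : ((N * L : ℕ) : ℤ) ∣ X * o + Y * (N * e)) : X = 0 ∧ (L : ℤ) ∣ Y := by
  have h1 : (N : ℤ) ∣ X * o := by
    have h2 : (N : ℤ) ∣ X * o + Y * (N * e) := by
      refine dvd_trans ?_ h
      push_cast
      exact Dvd.intro _ rfl
    have h3 : (N : ℤ) ∣ Y * (N * e) := ⟨Y * e, by ring⟩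
    exact (dvd_add_left h3).mp h2
  have h2 : (N : ℤ) ∣ X := by
    have h3 : IsCoprime (N : ℤ) (o : ℤ) := Nat.isCoprime_iff_coprime.mpr ho.symm
    exact h3.dvd_of_dvd_mul_right h1
  have h3 : X = 0 := Int.eq_zero_of_abs_lt_dvd h2 hX
  refine ⟨h3, ?_⟩
  rw [h3, zero_mul, zero_add] at h
  have h4 : (N : ℤ) * L ∣ (N : ℤ) * (Y * e) := by
    have h5 : Y * ((N : ℤ) * e) = N * (Y * e) := by ring
    rw [h5] at h
    exact_mod_cast h
  have h5 : (L : ℤ) ∣ Y * e := by
    have hN' : (N : ℤ) ≠ 0 := by exact_mod_cast hN.ne'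
    exact (mul_dvd_mul_iff_left hN').mp h4
  have h6 : IsCoprime (L : ℤ) (e : ℤ) := Nat.isCoprime_iff_coprime.mpr he.symm
  exact h6.dvd_of_dvd_mul_right h5

section

variable {N L : ℕ}

/-- `y e` for `y` modulo `L`, as an element modulo `N L` -/
def gE (N L e : ℕ) (y : ZMod L) : ZMod (N * L) := (y.val : ZMod (N * L)) * ((N * e : ℕ) : ZMod (N * L))

theorem gE_congr {e a b : ℕ} (h : a ≡ b [MOD L]) :
    ((a : ℕ) : ZMod (N * L)) * ((N * e : ℕ) : ZMod (N * L)) =
      ((b : ℕ) : ZMod (N * L)) * ((N * e : ℕ) : ZMod (N * L)) := by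
  rw [← Nat.cast_mul, ← Nat.cast_mul, ZMod.natCast_eq_natCast_iff]
  have h1 : N * (a * e) ≡ N * (b * e) [MOD N * L] := Nat.ModEq.mul_left' N (h.mul_right e)
  have h2 : ∀ c : ℕ, c * (N * e) = N * (c * e) := fun c => by ring
  rw [h2, h2]
  exact h1

theorem gE_cast (e c : ℕ) : gE N L e (c : ZMod L) =
    (c : ZMod (N * L)) * ((N * e : ℕ) : ZMod (N * L)) := by
  unfold gE
  apply gE_congr
  rw [ZMod.val_natCast]
  exact Nat.mod_modEq c L

theorem gE_add (hL : 0 < L) (e : ℕ) (y z : ZMod L) : gE N L e (y + z) = gE N L e y + gE N L e z := by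
  have : NeZero L := ⟨hL.ne'⟩
  have h1 : gE N L e (y + z) = ((y.val + z.val : ℕ) : ZMod (N * L)) *
      ((N * e : ℕ) : ZMod (N * L)) := by
    unfold gE
    apply gE_congr
    rw [ZMod.val_add]
    exact Nat.mod_modEq _ L
  rw [h1, Nat.cast_add, add_mul]
  rfl

theorem gE_sub (hL : 0 < L) (e : ℕ) (y z : ZMod L) : gE N L e (y - z) = gE N L e y - gE N L e z := by
  rw [eq_sub_iff_add_eq, ← gE_add hL, sub_add_cancel]

/-- the positions -/
def gpos (N L e o : ℕ) (x : Fin N × ZMod L) : ZMod (N * L) :=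
  (x.1.val : ZMod (N * L)) * o + gE N L e x.2 -
    ((x.1.val / 2 : ℕ) : ZMod (N * L)) * ((N * e : ℕ) : ZMod (N * L))

theorem gpos_bij {e o : ℕ} (hN : 0 < N) (hL : 0 < L) (he : Nat.Coprime e L)
    (ho : Nat.Coprime o N) : Function.Bijective (gpos N L e o) := by
  have : NeZero L := ⟨hL.ne'⟩
  have : NeZero (N * L) := ⟨(Nat.mul_pos hN hL).ne'⟩
  rw [Fintype.bijective_iff_injective_and_card]
  refine ⟨?_, by rw [Fintype.card_prod, Fintype.card_fin, ZMod.card, ZMod.card]⟩
  rintro ⟨x, y⟩ ⟨x', y'⟩ h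
  have h1 : ((((x.val : ℤ) - x'.val) * o + (((y.val : ℤ) - ((x.val / 2 : ℕ) : ℤ)) -
      (y'.val - ((x'.val / 2 : ℕ) : ℤ))) * (N * e) : ℤ) : ZMod (N * L)) = 0 := by
    unfold gpos gE at h
    dsimp only at h
    generalize x.val / 2 = k at h ⊢
    generalize x'.val / 2 = k' at h ⊢
    push_cast at h ⊢
    linear_combination h
  rw [ZMod.intCast_zmod_eq_zero_iff_dvd] at h1
  have hx := x.isLt
  have hx' := x'.isLt
  obtain ⟨h2, h3⟩ := grid_inj hN he ho (X := (x.val : ℤ) - x'.val)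
    (Y := ((y.val : ℤ) - ((x.val / 2 : ℕ) : ℤ)) - (y'.val - ((x'.val / 2 : ℕ) : ℤ)))
    (by rw [abs_lt]; constructor <;> omega) h1
  have h4 : x.val = x'.val := by omega
  rw [h4] at h3
  have h5 : (L : ℤ) ∣ (y.val : ℤ) - y'.val := by
    have h6 : ((y.val : ℤ) - ((x'.val / 2 : ℕ) : ℤ)) - (y'.val - ((x'.val / 2 : ℕ) : ℤ)) =
        (y.val : ℤ) - y'.val := by ring
    rwa [h6] at h3
  have h6 : y.val ≡ y'.val [MOD L] := ((Nat.modEq_iff_dvd).mpr (by
    have := dvd_neg.mpr h5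
    rwa [neg_sub] at this))
  have h7 := Nat.ModEq.eq_of_lt_of_lt h6 (ZMod.val_lt y) (ZMod.val_lt y')
  exact Prod.ext (Fin.ext h4) (ZMod.val_injective L h7)

/-- sets on the grid -/
theorem CF_grid {e o : ℕ} (hN : 0 < N) (hN2 : N % 2 = 0) (hL : 1 < L) (he : Nat.Coprime e L)
    (ho : Nat.Coprime o N) (heN : N * e < N * L) (hoN : o < N * L) (J : ℕ → ℕ → Prop)
    [∀ x, DecidablePred (J x)] (hlast : ∀ y, ¬ J (N - 1) y)
    (h : ∀ x < N, ∀ y < L, ind (J x y) + ind (J x (sb L y 1)) +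
      (if x = 0 then 0 else if x % 2 = 1 then ind (J (x - 1) y) else
        ind (J (x - 1) (sb L y 1))) ≤ 1)
    (hcount : N * L ≤ 4 * ∑ x ∈ Finset.range N, cnt L (J x)) : CF (N * L) (N * e) o := by
  have hL0 : 0 < L := by omega
  have : NeZero L := ⟨hL0.ne'⟩
  obtain ⟨t, ht⟩ : ∃ t : ℕ, t * e ≡ o [MOD L] := by
    obtain ⟨r, _, hr⟩ := Nat.exists_mul_mod_eq_one_of_coprime he hL
    refine ⟨o * r, ?_⟩
    have h1 : e * r ≡ 1 [MOD L] := by
      unfold Nat.ModEq
      rw [hr, Nat.mod_eq_of_lt hL]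
    have h2 := h1.mul_left o
    rw [mul_one] at h2
    have h3 : o * r * e = o * (e * r) := by ring
    rw [h3]
    exact h2
  have htE : gE N L e (t : ZMod L) = (N : ZMod (N * L)) * o := by
    rw [gE_cast]
    have h1 : N * (t * e) ≡ N * o [MOD N * L] := Nat.ModEq.mul_left' N ht
    have h2 := (ZMod.natCast_eq_natCast_iff _ _ _).mpr h1
    push_cast at h2 ⊢
    linear_combination h2
  have h1E : gE N L e 1 = ((N * e : ℕ) : ZMod (N * L)) := by
    have := gE_cast (N := N) (L := L) e 1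
    rw [Nat.cast_one, Nat.cast_one, one_mul] at this
    exact this
  refine CF_of (Nat.mul_pos hN hL0) (gpos N L e o) (gpos_bij hN hL0 he ho)
    (fun x => J x.1.val x.2.val) (fun x => (x.1, x.2 - 1))
    (fun x => if x.1.val = 0 then (⟨N - 1, by omega⟩, x.2 - (t : ZMod L) +
        ((N / 2 - 1 : ℕ) : ZMod L))
      else if x.1.val % 2 = 1 then (⟨x.1.val - 1, by have := x.1.isLt; omega⟩, x.2)
      else (⟨x.1.val - 1, by have := x.1.isLt; omega⟩, x.2 - 1))
    (N * e) o heN hoN ?_ ?_ ?_ ?_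
  · rintro ⟨x, y⟩
    unfold gpos
    dsimp only
    rw [gE_sub hL0, h1E]
    ring
  · rintro ⟨x, y⟩
    have hx := x.isLt
    dsimp only
    split_ifs with h0 h1
    · unfold gpos
      dsimp only
      rw [gE_add hL0, gE_sub hL0, htE, gE_cast, h0, Nat.zero_div, Nat.cast_zero,
        Nat.cast_sub (show 1 ≤ N by omega), show (N - 1) / 2 = N / 2 - 1 by omega]
      push_cast
      ring
    · unfold gpos
      dsimp only
      rw [show (x.val - 1) / 2 = x.val / 2 by omega, Nat.cast_sub (show 1 ≤ x.val by omega)]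
      push_cast
      ring
    · unfold gpos
      dsimp only
      rw [gE_sub hL0, h1E, show (x.val - 1) / 2 = x.val / 2 - 1 by omega,
        Nat.cast_sub (show 1 ≤ x.val by omega), Nat.cast_sub (show 1 ≤ x.val / 2 by omega)]
      push_cast
      ring
  · rintro ⟨x, y⟩
    have h1 := h x.val x.isLt y.val (ZMod.val_lt y)
    have hv : (y - 1).val = sb L y.val 1 := by
      have := val_sub_sb hL0 y 1 hL
      rwa [Nat.cast_one] at this
    dsimp only
    rw [hv]
    refine le_trans (Nat.add_le_add_left ?_ _) h1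
    split_ifs with h0 h2
    · have h3 : ind (J (N - 1) ((y - (t : ZMod L) + ((N / 2 - 1 : ℕ) : ZMod L)).val)) = 0 :=
        if_neg (hlast _)
      exact le_of_eq h3
    · exact le_of_eq rfl
    · rw [hv]
  · rw [card_grid J]
    exact hcount

end

end Pool.Agent.CE
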