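import Pool.Agent.Lib_helper89.CE.K6

/-!
# Cubic exponents (MP_85e36e_co): the grids which have a set without collisions
-/

set_option autoImplicit false

namespace Pool.Agent.CE

open Pool.Agent.TV

theorem sum_pairs (f : ℕ → ℕ) (c0 c1 M : ℕ) (h0 : ∀ i < M, c0 ≤ f (2 * i))
    (h1 : ∀ i < M, c1 ≤ f (2 * i + 1)) :
    M * (c0 + c1) ≤ ∑ x ∈ Finset.range (2 * M), f x := by
  induction M with
  | zero => simp
  | succ M ih =>
    have h := ih (fun i hi => h0 i (by omega)) (fun i hi => h1 i (by omega))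
    rw [show 2 * (M + 1) = 2 * M + 1 + 1 by ring, Finset.sum_range_succ, Finset.sum_range_succ]
    have h2 := h0 M (by omega)
    have h3 := h1 M (by omega)
    have h4 : (M + 1) * (c0 + c1) = M * (c0 + c1) + (c0 + c1) := by ring
    omega

theorem CF_even {N L e o : ℕ} (hN : 0 < N) (hN2 : N % 2 = 0) (hL : 1 < L) (hL2 : L % 2 = 0)
    (he : Nat.Coprime e L) (ho : Nat.Coprime o N) (heN : N * e < N * L) (hoN : o < N * L) :
    CF (N * L) (N * e) o := by
  refine CF_grid hN hN2 hL he ho heN hoN (fun x y => x % 2 = 0 ∧ y % 2 = 0) ?_ ?_ ?_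
  · intro y
    omega
  · intro x hx y hy
    rcases Nat.mod_two_eq_zero_or_one x with h0 | h1
    · have h2 : ¬ ((x - 1) % 2 = 0) ∨ x = 0 := by omega
      unfold ind sb
      split_ifs <;> omega
    · unfold ind sb
      split_ifs <;> omega
  · obtain ⟨M, rfl⟩ : ∃ M, N = 2 * M := ⟨N / 2, by omega⟩
    have h := sum_pairs (fun x => cnt L (fun y => x % 2 = 0 ∧ y % 2 = 0)) (L / 2) 0 M (by
      intro i hi
      refine cnt_ge (fun j => 2 * j) ?_ ?_
      · intro j hj
        omega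
      · intro j hj k hk hjk
        omega) (by
      intro i hi
      exact Nat.zero_le _)
    obtain ⟨l, rfl⟩ : ∃ l, L = 2 * l := ⟨L / 2, by omega⟩
    have h2 : 2 * l / 2 = l := by omega
    rw [h2] at h
    calc 2 * M * (2 * l) = 4 * (M * (l + 0)) := by ring
      _ ≤ _ := Nat.mul_le_mul_left 4 h

theorem CF_odd {N L e o : ℕ} (hN : 4 ≤ N) (hN2 : N % 2 = 0) (hL : 1 < L) (hL2 : L % 2 = 1)
    (he : Nat.Coprime e L) (ho : Nat.Coprime o N) (heN : N * e < N * L) (hoN : o < N * L) :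
    CF (N * L) (N * e) o := by
  refine CF_grid (by omega) hN2 hL he ho heN hoN
    (fun x y => (x % 2 = 0 ∧ y % 2 = 0 ∧ y + 3 ≤ L) ∨ (x % 2 = 1 ∧ x + 3 ≤ N ∧ y + 2 = L)) ?_ ?_ ?_
  · intro y
    omega
  · intro x hx y hy
    rcases Nat.mod_two_eq_zero_or_one x with h0 | h1
    · unfold ind sb
      split_ifs <;> omega
    · unfold ind sb
      split_ifs <;> omega
  · obtain ⟨M, rfl⟩ : ∃ M, N = 2 * (M + 1) := ⟨N / 2 - 1, by omega⟩
    obtain ⟨l, rfl⟩ : ∃ l, L = 2 * l + 1 := ⟨L / 2, by omega⟩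
    have h := sum_pairs (fun x => cnt (2 * l + 1) (fun y => (x % 2 = 0 ∧ y % 2 = 0 ∧
      y + 3 ≤ 2 * l + 1) ∨ (x % 2 = 1 ∧ x + 3 ≤ 2 * (M + 1) ∧ y + 2 = 2 * l + 1))) l 1 M (by
      intro i hi
      refine cnt_ge (fun j => 2 * j) ?_ ?_
      · intro j hj
        omega
      · intro j hj k hk hjk
        omega) (by
      intro i hi
      refine cnt_ge (fun j => 2 * l - 1) ?_ ?_
      · intro j hj
        omega
      · intro j hj k hk hjk
        omega)
    have h2 : l ≤ cnt (2 * l + 1) (fun y => ((2 * M) % 2 = 0 ∧ y % 2 = 0 ∧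
      y + 3 ≤ 2 * l + 1) ∨ ((2 * M) % 2 = 1 ∧ (2 * M) + 3 ≤ 2 * (M + 1) ∧ y + 2 = 2 * l + 1)) := by
      refine cnt_ge (fun j => 2 * j) ?_ ?_
      · intro j hj
        omega
      · intro j hj k hk hjk
        omega
    rw [show 2 * (M + 1) = 2 * M + 1 + 1 by ring] at h h2 ⊢
    rw [Finset.sum_range_succ, Finset.sum_range_succ]
    have h3 : (2 * M + 1 + 1) * (2 * l + 1) ≤ 4 * (M * (l + 1) + l) := by
      nlinarith [hN]
    refine h3.trans (Nat.mul_le_mul_left 4 ?_)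
    refine le_trans ?_ (Nat.le_add_right _ _)
    exact Nat.add_le_add h h2

end Pool.Agent.CE
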