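import Pool.Agent.Lib_helper89.CE.K7
import Pool.Agent.Lib_helper89.CE.K5

/-!
# Cubic exponents (MP_85e36e_co): shapes modulo translations
-/

set_option autoImplicit false

namespace Pool.Agent.CE

open Pool.Agent.TV

/-- The power of two with the exponent `g x`. -/
noncomputable def pg (g m : ℕ) (x : ZMod m) : ZMod (2 ^ (g * m) - 1) := 2 ^ (g * x.val)

theorem two_pow_gm (g m k : ℕ) : (2 : ZMod (2 ^ (g * m) - 1)) ^ (g * (k % m)) = 2 ^ (g * k) := by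
  have h : g * k = g * (k % m) + g * m * (k / m) := by
    conv_lhs => rw [← Nat.mod_add_div k m]
    ring
  rw [h, pow_add, pow_mul (2 : ZMod (2 ^ (g * m) - 1)) (g * m), two_pow_n, one_pow, mul_one]

theorem pg_add {g m : ℕ} (hm : 0 < m) (x y : ZMod m) :
    pg g m (x + y) = pg g m x * pg g m y := by
  have : NeZero m := ⟨hm.ne'⟩
  unfold pg
  rw [ZMod.val_add, two_pow_gm, Nat.mul_add, pow_add]

theorem pg_cast (g m k : ℕ) : pg g m (k : ZMod m) = 2 ^ (g * k) := by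
  unfold pg
  rw [ZMod.val_natCast, two_pow_gm]

theorem pg_zero (g m : ℕ) : pg g m (0 : ZMod m) = 1 := by
  have := pg_cast g m 0
  rw [Nat.cast_zero, mul_zero, pow_zero] at this
  exact this

/-- `d` is a shift of `2 ^ (g x) + 2 ^ (g y) + 2 ^ (g z)`. -/
def SP (g m d : ℕ) (x y z : ZMod m) : Prop :=
  ∃ i : ℕ, (d : ZMod (2 ^ (g * m) - 1)) = 2 ^ i * (pg g m x + pg g m y + pg g m z)

theorem SP.shift {g m d : ℕ} (hm : 0 < m) {x y z : ZMod m} (t : ZMod m)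
    (h : SP g m d (x + t) (y + t) (z + t)) : SP g m d x y z := by
  obtain ⟨i, hi⟩ := h
  refine ⟨i + g * t.val, ?_⟩
  rw [hi, pg_add hm, pg_add hm, pg_add hm, pow_add]
  have : (2 : ZMod (2 ^ (g * m) - 1)) ^ (g * t.val) = pg g m t := rfl
  rw [this]
  ring

theorem SP.swap1 {g m d : ℕ} {x y z : ZMod m} (h : SP g m d x y z) : SP g m d y x z := by
  obtain ⟨i, hi⟩ := h
  exact ⟨i, by rw [hi]; ring⟩

theorem SP.swap2 {g m d : ℕ} {x y z : ZMod m} (h : SP g m d x y z) : SP g m d x z y := by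
  obtain ⟨i, hi⟩ := h
  exact ⟨i, by rw [hi]; ring⟩

/-- Back to congruences. -/
theorem SP.nat {g m d : ℕ} {a b : ℕ} (h : SP g m d 0 (a : ZMod m) (b : ZMod m)) :
    ∃ i : ℕ, d ≡ 2 ^ i * (1 + 2 ^ (g * a) + 2 ^ (g * b)) [MOD 2 ^ (g * m) - 1] := by
  obtain ⟨i, hi⟩ := h
  refine ⟨i, ?_⟩
  rw [← ZMod.natCast_eq_natCast_iff, hi, pg_zero, pg_cast, pg_cast]
  push_cast
  rfl

theorem SP.nat' {g m d : ℕ} [NeZero m] {u : ZMod m} {a b : ℕ}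
    (h : SP g m d 0 (u * (a : ZMod m)) (u * (b : ZMod m))) :
    ∃ i : ℕ, d ≡ 2 ^ i * (1 + 2 ^ (g * u.val * a) + 2 ^ (g * u.val * b))
      [MOD 2 ^ (g * m) - 1] := by
  have h1 : SP g m d 0 ((u.val * a : ℕ) : ZMod m) ((u.val * b : ℕ) : ZMod m) := by
    push_cast
    rw [ZMod.natCast_zmod_val]
    exact h
  obtain ⟨i, hi⟩ := h1.nat
  refine ⟨i, ?_⟩
  rw [mul_assoc g, mul_assoc g]
  exact hi

theorem SP.one {m d : ℕ} [NeZero m] {u : ZMod m} {a b : ℕ}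
    (h : SP 1 m d 0 (u * (a : ZMod m)) (u * (b : ZMod m))) :
    ∃ i : ℕ, d ≡ 2 ^ i * (1 + 2 ^ (u.val * a) + 2 ^ (u.val * b)) [MOD 2 ^ m - 1] := by
  obtain ⟨i, hi⟩ := h.nat'
  rw [one_mul, one_mul] at hi
  exact ⟨i, hi⟩

theorem unit_nat {m : ℕ} [NeZero m] {u v : ZMod m} (h : u * v = 1) : u.val * v.val ≡ 1 [MOD m] := by
  rw [← ZMod.natCast_eq_natCast_iff]
  push_cast
  rw [ZMod.natCast_zmod_val, ZMod.natCast_zmod_val]
  exact h

/-- The kill criterion for sets without collisions. -/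
theorem SP.kill {g m d : ℕ} (hg : 0 < g) (hm : 0 < m) {u v : ZMod m} (huv : u * v = 1) {a b : ℕ}
    (ha : a < m) (hb : b < m) (hCF : CF m a b)
    (h : SP g m d 0 (u * (a : ZMod m)) (u * (b : ZMod m))) : ¬ V (g * m) d := by
  have : NeZero m := ⟨hm.ne'⟩
  obtain ⟨i, hi⟩ := h.nat'
  exact killCF' hg hm (unit_nat huv) ha hb (ZMod.val_lt v) hCF hi

/-- The conclusion: a power of two, or a member of one of the families (i), (ii), (iii), (iv). -/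
def Con (n d : ℕ) : Prop :=
  (∃ i : ℕ, d ≡ 2 ^ i [MOD 2 ^ n - 1]) ∨ ∃ e i : ℕ,
    (d ≡ 2 ^ i * e [MOD 2 ^ n - 1] ∨ d * e ≡ 2 ^ i [MOD 2 ^ n - 1]) ∧
    ((∃ k : ℕ, 0 < k ∧ Odd (n / Nat.gcd k n) ∧ e = 2 ^ k + 1) ∨
     (∃ k : ℕ, 0 < k ∧ Odd (n / Nat.gcd k n) ∧ e = 2 ^ (2 * k) - 2 ^ k + 1) ∨
     (n % 4 = 2 ∧ e = 2 ^ (n / 2) + 2 ^ ((n + 2) / 4) + 1) ∨
     (n % 4 = 2 ∧ e = 2 ^ ((n + 2) / 2) + 3))

end Pool.Agent.CE
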