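import Pool.Agent.Lib_helper89.CE.K8

/-!
# Cubic exponents (MP_85e36e_co): the shapes `{0, 2, w}` modulo `2 L`
-/

set_option autoImplicit false

namespace Pool.Agent.CE

open Pool.Agent.TV

theorem SP.shift' {g m d : ℕ} (hm : 0 < m) {x y z : ZMod m} (t : ZMod m)
    (h : SP g m d x y z) : SP g m d (x + t) (y + t) (z + t) := by
  apply SP.shift hm (-t)
  have e : ∀ s : ZMod m, s + t + -t = s := fun s => by ring
  rw [e, e, e]
  exact h

section

variable {L : ℕ}

theorem nz (hL : 3 ≤ L) : NeZero (2 * L) := ⟨by omega⟩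

theorem unit_odd {m : ℕ} (hm : 0 < m) (hm2 : m % 2 = 0) {u v : ZMod m} (h : u * v = 1) :
    u.val % 2 = 1 ∧ v.val % 2 = 1 := by
  have : NeZero m := ⟨hm.ne'⟩
  have h1 : u.val * v.val ≡ 1 [MOD 2] :=
    (unit_nat h).of_dvd (Nat.dvd_of_mod_eq_zero hm2)
  have h2 : (u.val * v.val) % 2 = 1 := h1
  rw [Nat.mul_mod] at h2
  rcases Nat.mod_two_eq_zero_or_one u.val with h3 | h3 <;>
    rcases Nat.mod_two_eq_zero_or_one v.val with h4 | h4 <;> simp [h3, h4] at h2 ⊢

theorem two_L : ((2 : ℕ) : ZMod (2 * L)) * (L : ZMod (2 * L)) = 0 := by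
  have := ZMod.natCast_self (2 * L)
  push_cast at this ⊢
  exact this

theorem odd_mul_L (hL : 3 ≤ L) {u : ZMod (2 * L)} (hu : u.val % 2 = 1) :
    u * (L : ZMod (2 * L)) = L := by
  have := nz hL
  obtain ⟨k, hk⟩ : ∃ k, u.val = 2 * k + 1 := ⟨u.val / 2, by omega⟩
  have h1 : u = ((2 * k + 1 : ℕ) : ZMod (2 * L)) := by rw [← hk, ZMod.natCast_zmod_val]
  have h2 := two_L (L := L)
  rw [h1]
  push_cast at h2 ⊢
  linear_combination (k : ZMod (2 * L)) * h2

theorem two_mul_eq_zero' (hL : 3 ≤ L) {x : ZMod (2 * L)} (hx : 2 * x = 0) :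
    x = 0 ∨ x = (L : ZMod (2 * L)) := by
  have := nz hL
  have h1 : ((2 * x.val : ℕ) : ZMod (2 * L)) = 0 := by
    push_cast
    rw [ZMod.natCast_zmod_val]
    exact hx
  rw [ZMod.natCast_eq_zero_iff] at h1
  obtain ⟨k, hk⟩ := h1
  have h2 : x.val = L * k := by
    have : 2 * x.val = 2 * (L * k) := by rw [hk]; ring
    omega
  have h3 := ZMod.val_lt x
  have h4 : k < 2 := by
    by_contra hc
    have : L * 2 ≤ L * k := Nat.mul_le_mul_left L (by omega)
    omega
  interval_cases k
  · left
    rw [mul_zero] at h2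
    exact (ZMod.val_eq_zero x).mp h2
  · right
    rw [← ZMod.natCast_zmod_val x, h2, mul_one]

theorem val_eq {m : ℕ} [NeZero m] {x : ZMod m} {k : ℕ} (h : x.val = k) : x = (k : ZMod m) := by
  rw [← h, ZMod.natCast_zmod_val]

/-- the shape `{0, 1, 1 + L}` -/
theorem caseE2 {g : ℕ} (hg : g % 2 = 1) (hL : 3 ≤ L) (hodd : L % 2 = 1) {u v : ZMod (2 * L)}
    (huv : u * v = 1) {d : ℕ} (h : SP g (2 * L) d 0 (u * ((1 : ℕ) : ZMod (2 * L)))
      (u * ((1 + L : ℕ) : ZMod (2 * L)))) (hV : V (g * (2 * L)) d) : Con (g * (2 * L)) d := by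
  have := nz hL
  have hun := unit_nat huv
  have hvlt := ZMod.val_lt v
  obtain ⟨hu2, hv2⟩ := unit_odd (by omega) (by omega) huv
  by_cases hg1 : g = 1
  · subst hg1
    obtain ⟨i, hi⟩ := h.one
    rw [one_mul] at hV ⊢
    have hvL : v.val ≠ L := by
      intro hc
      rw [hc] at hun
      have h1 : u.val * L ≡ 1 [MOD L] := hun.of_dvd (Dvd.intro_left 2 rfl)
      have h2 : u.val * L ≡ 0 [MOD L] := Nat.modEq_zero_iff_dvd.mpr (Dvd.intro_left _ rfl)
      have h3 := (h2.symm.trans h1)
      unfold Nat.ModEq at h3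
      rw [Nat.zero_mod, Nat.mod_eq_of_lt (by omega)] at h3
      omega
    rcases Nat.lt_or_ge L v.val with h1 | h1
    · by_cases h2 : v.val + 1 = 2 * L
      · exact absurd hV (E2_top hL hodd hun h2 hi)
      · exact absurd hV (E2_hi hL hodd hun hv2 h1 (by omega) hi)
    · by_cases h2 : v.val = 1
      · -- family (iv)
        have hv1 : v = 1 := by
          have := val_eq h2
          rw [Nat.cast_one] at this
          exact this
        have hu1 : u = 1 := by rw [hv1, mul_one] at huv; exact huv
        rw [hu1, one_mul, one_mul] at h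
        obtain ⟨j, hj⟩ := h.nat
        refine Or.inr ⟨2 ^ ((2 * L + 2) / 2) + 3, j, Or.inl ?_, Or.inr (Or.inr (Or.inr
          ⟨by omega, rfl⟩))⟩
        rw [show (2 * L + 2) / 2 = 1 * (1 + L) by omega,
          show 2 ^ (1 * (1 + L)) + 3 = 1 + 2 ^ (1 * 1) + 2 ^ (1 * (1 + L)) by ring]
        rw [one_mul (2 * L)] at hj
        exact hj
      · by_cases h3 : v.val + 2 = L
        · -- family (iii)
          have hv1 : v + 2 = (L : ZMod (2 * L)) := by
            have := congrArg (Nat.cast : ℕ → ZMod (2 * L)) h3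
            rw [Nat.cast_add, ZMod.natCast_zmod_val] at this
            rw [← this]
            rfl
          have huL := odd_mul_L hL hu2
          have hT := two_L (L := L)
          obtain ⟨s, hs⟩ : ∃ s, L + 1 = 2 * s := ⟨(L + 1) / 2, by omega⟩
          have hs' : (L : ZMod (2 * L)) + 1 = 2 * s := by
            have := congrArg (Nat.cast : ℕ → ZMod (2 * L)) hs
            push_cast at this
            exact this
          have h2u : 2 * (u + s) = 0 := by
            push_cast at hT
            linear_combination (-1 : ZMod (2 * L)) * huv + u * hv1 + huL - hs' + hT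
          have hSP : SP 1 (2 * L) d ((0 : ℕ) : ZMod (2 * L)) (s : ZMod (2 * L))
              (L : ZMod (2 * L)) := by
            have h5 := h.shift' (by omega) (s : ZMod (2 * L))
            have e1 : (0 : ZMod (2 * L)) + s = s := zero_add _
            have e2 : u * ((1 : ℕ) : ZMod (2 * L)) + s = u + s := by
              rw [Nat.cast_one, mul_one]
            have e3 : u * ((1 + L : ℕ) : ZMod (2 * L)) + s = u + s + L := by
              push_cast
              linear_combination huL
            rw [e1, e2, e3] at h5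
            rcases two_mul_eq_zero' hL h2u with h6 | h6
            · rw [h6, zero_add] at h5
              rw [Nat.cast_zero]
              exact h5.swap1
            · rw [h6] at h5
              have e4 : (L : ZMod (2 * L)) + L = 0 := by
                push_cast at hT
                linear_combination hT
              rw [e4] at h5
              rw [Nat.cast_zero]
              exact h5.swap2.swap1
          rw [Nat.cast_zero] at hSP
          obtain ⟨j, hj⟩ := hSP.nat
          refine Or.inr ⟨2 ^ ((2 * L) / 2) + 2 ^ ((2 * L + 2) / 4) + 1, j, Or.inl ?_,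
            Or.inr (Or.inr (Or.inl ⟨by omega, rfl⟩))⟩
          rw [show (2 * L) / 2 = 1 * L by omega, show (2 * L + 2) / 4 = 1 * s by omega,
            show 2 ^ (1 * L) + 2 ^ (1 * s) + 1 = 1 + 2 ^ (1 * s) + 2 ^ (1 * L) by ring]
          rw [one_mul (2 * L)] at hj
          exact hj
        · exact absurd hV (E2_lo hodd hun hv2 (by omega) (by omega) hi)
  · obtain ⟨k, rfl⟩ : ∃ k, g = 2 * k + 1 := ⟨g / 2, by omega⟩
    obtain ⟨i, hi⟩ := h.nat'
    exact absurd hV (E2_T (by omega) hL hodd hun hvlt hi)

/-- the shape `{0, 1, 3}` -/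
theorem caseE1 {g : ℕ} (hg : g % 2 = 1) (hL : 5 ≤ L) (hodd : L % 2 = 1) {u v : ZMod (2 * L)}
    (huv : u * v = 1) {d : ℕ} (h : SP g (2 * L) d 0 (u * ((1 : ℕ) : ZMod (2 * L)))
      (u * ((3 : ℕ) : ZMod (2 * L)))) (hV : V (g * (2 * L)) d) : Con (g * (2 * L)) d := by
  have := nz (L := L) (by omega)
  have hun := unit_nat huv
  have hvlt := ZMod.val_lt v
  obtain ⟨hu2, hv2⟩ := unit_odd (by omega) (by omega) huv
  by_cases hg1 : g = 1
  · subst hg1
    obtain ⟨i, hi⟩ := h.one
    rw [one_mul] at hV ⊢
    have hm4 : (2 * L) % 4 = 2 := by omega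
    by_cases hv4 : v.val % 4 = 1
    · by_cases h5 : v.val + 5 ≤ 2 * L
      · exact absurd hV (E1_one hm4 hun hv4 h5 hi)
      · -- family (ii) with `k = 2`
        have h6 : v.val + 1 = 2 * L := by omega
        have hv1 : v + 1 = 0 := by
          have := congrArg (Nat.cast : ℕ → ZMod (2 * L)) h6
          rw [ZMod.natCast_self, Nat.cast_add, ZMod.natCast_zmod_val, Nat.cast_one] at this
          exact this
        have hu1 : u = -1 := by
          linear_combination u * hv1 - huv
        have h7 := h.shift' (by omega) ((3 : ℕ) : ZMod (2 * L))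
        have e1 : u * ((1 : ℕ) : ZMod (2 * L)) + ((3 : ℕ) : ZMod (2 * L)) =
            ((2 : ℕ) : ZMod (2 * L)) := by
          rw [hu1]
          push_cast
          ring
        have e2 : u * ((3 : ℕ) : ZMod (2 * L)) + ((3 : ℕ) : ZMod (2 * L)) = 0 := by
          rw [hu1]
          push_cast
          ring
        rw [e1, e2, zero_add] at h7
        obtain ⟨j, hj⟩ := h7.swap2.swap1.swap2.nat
        refine Or.inr ⟨13, j, Or.inl ?_, Or.inr (Or.inl ⟨2, by norm_num, ?_, by norm_num⟩)⟩
        · rw [one_mul (2 * L)] at hj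
          norm_num at hj ⊢
          exact hj
        · have : Nat.gcd 2 (2 * L) = 2 := Nat.gcd_mul_right_right 2 L |>.symm ▸ by
            simp
          rw [this, Nat.mul_div_cancel_left L (by norm_num), Nat.odd_iff]
          exact hodd
    · have hv3 : v.val % 4 = 3 := by omega
      by_cases h7 : 7 ≤ v.val
      · exact absurd hV (E1_three hm4 hun hv3 h7 hvlt hi)
      · have hval3 : v.val = 3 := by omega
        rw [hval3] at hun
        by_cases h14 : 14 ≤ 2 * L
        · exact absurd hV (E1_eq hm4 hun h14 hi)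
        · -- `n = 10`
          have hL5 : L = 5 := by omega
          subst hL5
          have hu7 : u.val = 7 := by
            have hult := ZMod.val_lt u
            unfold Nat.ModEq at hun
            omega
          rw [hu7] at hi
          refine Or.inr ⟨41, i + 8, Or.inr ?_, Or.inr (Or.inr (Or.inl
            ⟨by norm_num, by norm_num⟩))⟩
          have h1 : d * 41 ≡ 2 ^ i * (1 + 2 ^ (7 * 1) + 2 ^ (7 * 3)) * 41 [MOD 2 ^ (2 * 5) - 1] :=
            hi.mul_right 41
          refine h1.trans ?_
          rw [pow_add, mul_assoc]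
          apply Nat.ModEq.mul_left
          unfold Nat.ModEq
          norm_num
  · obtain ⟨k, rfl⟩ : ∃ k, g = 2 * k + 1 := ⟨g / 2, by omega⟩
    obtain ⟨i, hi⟩ := h.nat'
    exact absurd hV (E1_T (by omega) (by omega) (by omega) hun hvlt hi)

end

end Pool.Agent.CE
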